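import Pool.Agent.Y851.DG.Fin

/-! Restricted digits: the main theorem. -/

set_option autoImplicit false

namespace Pool.Agent.Y851.DG
open Finset Filter
open Pool.Agent.W301.SS

/-- the base is large -/
lemma ev_base (ε κ δ : ℝ) (hε : 0 < ε) (hκ : 0 < κ) (hκε : κ ≤ ε / 40) (hε1 : ε ≤ 1 / 2) (_hδ : 0 < δ) :
    ∀ᶠ b : ℕ in atTop, 2 ≤ b ∧ (2 : ℝ) ≤ (b : ℝ) ^ κ ∧
      42 * (1 + Real.log b) ≤ 1 / 2 * (b : ℝ) ^ (3 * ε / 40) ∧ 1 / δ ≤ (b : ℝ) ^ (1 / 2 : ℝ) := by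
  filter_upwards [eventually_ge_atTop 2, ev_log 0 2 κ hκ,
    ev_log 0 84 (3 * ε / 80) (by positivity), ev_log 1 84 (3 * ε / 80) (by positivity),
    ev_log 0 (1 / δ) (1 / 2) (by norm_num), ev_log 0 2 (3 * ε / 80) (by positivity)] with
    b h1 h2 h3 h4 h5 h6
  rw [pow_zero, mul_one] at h2 h3 h5 h6
  rw [pow_one] at h4
  have hb1 : (1 : ℝ) ≤ b := by exact_mod_cast (by omega : 1 ≤ b)
  refine ⟨h1, h2, ?_, h5⟩
  have e : (b : ℝ) ^ (3 * ε / 40) = (b : ℝ) ^ (3 * ε / 80) * (b : ℝ) ^ (3 * ε / 80) := by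
    rw [← Real.rpow_add (by linarith)]; congr 1; ring
  rw [e]
  have : 0 ≤ (b : ℝ) ^ (3 * ε / 80) := by positivity
  nlinarith

/-- the hypothesis on the base and the digits gives the bound for one digit -/
lemma digit_ok {ε κ : ℝ} (hε : 0 < ε) (hκ : 0 < κ) (hκε : κ ≤ ε / 40) (hε1 : ε ≤ 1 / 2)
    {b : ℕ} (hb : 2 ≤ b) (h2 : (2 : ℝ) ≤ (b : ℝ) ^ κ)
    (h3 : 42 * (1 + Real.log b) ≤ 1 / 2 * (b : ℝ) ^ (3 * ε / 40)) {u ℓ : ℕ} (hℓb : ℓ ≤ b)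
    (hℓ : (b : ℝ) ^ (1 - κ) ≤ ℓ) {D : Finset ℕ} (hD : D ⊆ Ico u (u + ℓ))
    (hE : ((Ico u (u + ℓ) \ D).card : ℝ) ≤ (b : ℝ) ^ κ) :
    (b : ℝ) ^ (1 - 2 * κ) ≤ D.card ∧
    ∀ θ : ℝ, ∑ s ∈ range b, ‖FA D (θ + (s : ℝ) / b)‖ ≤ D.card * (b : ℝ) ^ (ε / 8) := by
  have hb1 : (1 : ℝ) ≤ b := by exact_mod_cast (by omega : 1 ≤ b)
  have hb0 : (0 : ℝ) < b := by linarith
  have h4 : (ℓ : ℝ) = D.card + ((Ico u (u + ℓ) \ D).card : ℝ) := by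
    have := card_sdiff_add_card_eq_card hD
    rw [Nat.card_Ico] at this
    have h5 : (Ico u (u + ℓ) \ D).card + D.card = ℓ := by omega
    have h6 : (((Ico u (u + ℓ) \ D).card : ℕ) : ℝ) + D.card = ℓ := by exact_mod_cast h5
    linarith
  have hc : (b : ℝ) ^ (1 - 2 * κ) ≤ D.card := by
    have e1 : (b : ℝ) ^ (1 - κ) = (b : ℝ) ^ (1 - 2 * κ) * (b : ℝ) ^ κ := by
      rw [← Real.rpow_add hb0]; congr 1; ring
    have e2 : (b : ℝ) ^ κ ≤ (b : ℝ) ^ (1 - 2 * κ) :=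
      Real.rpow_le_rpow_of_exponent_le hb1 (by linarith)
    have e3 : 0 ≤ (b : ℝ) ^ (1 - 2 * κ) := by positivity
    nlinarith
  refine ⟨hc, fun θ => ?_⟩
  refine (one_digit (by omega) hℓb hD θ).trans ?_
  have h5 : 42 * (b : ℝ) * (1 + Real.log b) + b * ((Ico u (u + ℓ) \ D).card : ℝ) ≤
      b * (b : ℝ) ^ (3 * ε / 40) := by
    have h6 : ((Ico u (u + ℓ) \ D).card : ℝ) ≤ 1 / 2 * (b : ℝ) ^ (3 * ε / 40) := by
      refine hE.trans ?_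
      have e1 : (b : ℝ) ^ κ * (b : ℝ) ^ κ ≤ (b : ℝ) ^ (3 * ε / 40) := by
        rw [← Real.rpow_add hb0]
        exact Real.rpow_le_rpow_of_exponent_le hb1 (by linarith)
      have e2 : 0 ≤ (b : ℝ) ^ κ := by positivity
      nlinarith
    calc 42 * (b : ℝ) * (1 + Real.log b) + b * ((Ico u (u + ℓ) \ D).card : ℝ) =
          b * (42 * (1 + Real.log b) + ((Ico u (u + ℓ) \ D).card : ℝ)) := by ring
      _ ≤ b * (1 / 2 * (b : ℝ) ^ (3 * ε / 40) + 1 / 2 * (b : ℝ) ^ (3 * ε / 40)) := by gcongr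
      _ = _ := by ring
  refine h5.trans ?_
  calc (b : ℝ) * (b : ℝ) ^ (3 * ε / 40) = (b : ℝ) ^ (1 + 3 * ε / 40) := by
        rw [Real.rpow_add hb0, Real.rpow_one]
    _ ≤ (b : ℝ) ^ (1 - 2 * κ + ε / 8) := Real.rpow_le_rpow_of_exponent_le hb1 (by linarith)
    _ = (b : ℝ) ^ (1 - 2 * κ) * (b : ℝ) ^ (ε / 8) := Real.rpow_add hb0 _ _
    _ ≤ _ := by gcongr


end Pool.Agent.Y851.DG
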