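import Pool.Agent.Y851.DG.Est
import Pool.Agent.W301.SS.Good

/-! From the weights to the counts, for intervals to the left. -/

set_option autoImplicit false

namespace Pool.Agent.Y851.DG
open Finset Filter
open Pool.Agent.W301.SS

lemma sum_left {x H : ℕ} (hx : H < x) : ∑ h ∈ Ioc 0 H, om (x - h) =
    ∑ h ∈ Ioc 0 H, om (x - 1 - H + h) := by
  apply sum_nbij' (fun h => H + 1 - h) (fun h => H + 1 - h)
  · intro h hh; rw [mem_Ioc] at hh ⊢; omega
  · intro h hh; rw [mem_Ioc] at hh ⊢; omega
  · intro h hh; rw [mem_Ioc] at hh; omega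
  · intro h hh; rw [mem_Ioc] at hh; omega
  · intro h hh; rw [mem_Ioc] at hh; congr 1; omega

lemma low_TL {A : Finset ℕ} {N X H : ℕ} (hA : ∀ a ∈ A, a ≤ N) (hHX : H < X) {E : ℝ}
    (hE : ∀ m : ℕ, m ≤ 4 * N → |Chebyshev.theta (m : ℝ) - m| ≤ E) :
    ((A.filter (fun x => X ≤ x)).card : ℝ) * (H - 2 * E) ≤ TL A H := by
  unfold TL
  have h1 : ∑ x ∈ A.filter (fun x => X ≤ x), ∑ h ∈ Ioc 0 H, om (x - h) ≤
      ∑ x ∈ A, ∑ h ∈ Ioc 0 H, om (x - h) := by
    apply sum_le_sum_of_subset_of_nonneg (filter_subset _ _)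
    intro _ _ _
    exact sum_nonneg fun _ _ => om_nonneg _
  refine le_trans ?_ h1
  rw [← nsmul_eq_mul, ← sum_const]
  apply sum_le_sum
  intro x hx
  rw [mem_filter] at hx
  have hxN := hA x hx.1
  rw [sum_left (by omega), sum_om_Ioc]
  have h2 := hE (x - 1 - H + H) (by omega)
  have h3 := hE (x - 1 - H) (by omega)
  rw [abs_le] at h2 h3
  push_cast at h2 h3 ⊢
  linarith

/-- the shifted set -/
def sh (A : Finset ℕ) (H : ℕ) : Finset ℕ := (A.filter (fun x => H + 2 ≤ x)).image (fun x => x - (H + 2))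

lemma sh_inj (A : Finset ℕ) (H : ℕ) :
    Set.InjOn (fun x => x - (H + 2)) (↑(A.filter (fun x => H + 2 ≤ x)) : Set ℕ) := by
  intro a ha b hb hab
  rw [mem_coe, mem_filter] at ha hb
  simp only at hab
  omega

lemma sh_card (A : Finset ℕ) (H : ℕ) : A.card ≤ (sh A H).card + (H + 2) := by
  unfold sh
  rw [card_image_of_injOn (sh_inj A H)]
  have h1 : A.card = (A.filter (fun x => H + 2 ≤ x)).card + (A.filter (fun x => ¬ (H + 2 ≤ x))).card :=
    (card_filter_add_card_filter_not _).symm
  have h2 : (A.filter (fun x => ¬ (H + 2 ≤ x))).card ≤ H + 2 := by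
    have : A.filter (fun x => ¬ (H + 2 ≤ x)) ⊆ range (H + 2) := by
      intro x hx
      rw [mem_filter] at hx
      rw [mem_range]; omega
    have h3 := card_le_card this
    rwa [card_range] at h3
  omega

lemma sh_card_le (A : Finset ℕ) (H : ℕ) : (sh A H).card ≤ A.card := by
  unfold sh
  exact card_image_le.trans (card_filter_le _ _)

lemma om_le_log {N n : ℕ} (hN : 1 ≤ N) (h : n ≤ N) : om n ≤ Real.log N := by
  unfold om
  split_ifs with hp
  · exact Real.log_le_log (by exact_mod_cast hp.pos) (by exact_mod_cast h)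
  · exact Real.log_nonneg (by exact_mod_cast hN)

lemma up_TL {A : Finset ℕ} {N H : ℕ} (hN : 1 ≤ N) (hA : ∀ a ∈ A, a ≤ N) :
    TL A H ≤ cs (sh A H) 1 H * Real.log N + (H + 2) * (H * Real.log N) := by
  have hlog : 0 ≤ Real.log N := Real.log_nonneg (by exact_mod_cast hN)
  unfold TL
  rw [← sum_filter_add_sum_filter_not A (fun x => H + 2 ≤ x)]
  apply add_le_add
  · unfold cs sh
    rw [sum_image (sh_inj A H), sum_mul]
    apply sum_le_sum
    intro x hx
    rw [mem_filter] at hx
    have hxN := hA x hx.1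
    rw [sum_left (by omega), pn_eq, sum_mul]
    apply sum_le_sum
    intro h hh
    rw [mem_Ioc] at hh
    have e : x - (H + 2) + 1 + h = x - 1 - H + h := by omega
    rw [e]
    split_ifs with hp
    · rw [one_mul]
      exact om_le_log hN (by omega)
    · unfold om
      rw [if_neg hp, zero_mul]
  · have h1 : ∀ x ∈ A.filter (fun x => ¬ (H + 2 ≤ x)), ∑ h ∈ Ioc 0 H, om (x - h) ≤ H * Real.log N := by
      intro x hx
      rw [mem_filter] at hx
      have hxN := hA x hx.1
      have : ∀ h ∈ Ioc 0 H, om (x - h) ≤ Real.log N := fun h _ => om_le_log hN (by omega)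
      refine (sum_le_sum this).trans ?_
      rw [sum_const, Nat.card_Ioc, nsmul_eq_mul, Nat.sub_zero]
    refine (sum_le_sum h1).trans ?_
    rw [sum_const, nsmul_eq_mul]
    apply mul_le_mul_of_nonneg_right _ (by positivity)
    have : A.filter (fun x => ¬ (H + 2 ≤ x)) ⊆ range (H + 2) := by
      intro x hx
      rw [mem_filter] at hx
      rw [mem_range]; omega
    have h3 := card_le_card this
    rw [card_range] at h3
    exact_mod_cast h3

/-- the elements of `A` above `X` with a prime in `[x - H, x)` -/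
lemma count_of_GG {A : Finset ℕ} {N H X : ℕ} {τ : ℝ} (hτ : 0 < τ) (hH : 1 ≤ H) (S : Finset ℕ)
    (hS : ∀ x ∈ A, X ≤ x → ∀ p : ℕ, p.Prime → x - H ≤ p → p < x → H + 2 ≤ x → x ∈ S) :
    (GG (sh A H) N 1 H τ).card ≤ S.card + (A.filter (fun x => x < X)).card := by
  classical
  have h1 : (GG (sh A H) N 1 H τ).image (fun a => a + (H + 2)) ⊆ S ∪ A.filter (fun x => x < X) := by
    intro x hx
    rw [mem_image] at hx
    obtain ⟨a, ha, rfl⟩ := hx
    unfold GG at ha
    rw [mem_filter] at ha
    obtain ⟨ha1, ha2⟩ := ha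
    unfold sh at ha1
    rw [mem_image] at ha1
    obtain ⟨x, hx, rfl⟩ := ha1
    rw [mem_filter] at hx
    rw [Nat.sub_add_cancel hx.2]
    rw [mem_union]
    by_cases hX : X ≤ x
    · left
      have h2 : 0 < pn (x - (H + 2) + 1) H := by
        by_contra hcon
        have h3 : pn (x - (H + 2) + 1) H = 0 := by omega
        rw [h3] at ha2
        have hH0 : (0 : ℝ) < H := by exact_mod_cast hH
        have : 0 < τ * H := by positivity
        simp at ha2
        linarith
      unfold pn at h2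
      rw [card_pos] at h2
      obtain ⟨p, hp⟩ := h2
      rw [mem_filter, mem_Ioc] at hp
      exact hS x hx.1 hX p hp.2 (by omega) (by omega) hx.2
    · right
      rw [mem_filter]
      exact ⟨hx.1, by omega⟩
  have h2 := card_le_card h1
  rw [card_image_of_injective _ (add_left_injective _)] at h2
  exact h2.trans (card_union_le _ _)

end Pool.Agent.Y851.DG
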