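import Pool.Agent.Y851.DG.Fin

/-! Restricted digits: comparison of the two lengths; long intervals; lengths. -/

set_option autoImplicit false

namespace Pool.Agent.Y851.DG
open Finset Filter
open Pool.Agent.W301.SS

/-- comparison -/
lemma comp (b : ℕ) (hb : 2 ≤ b) (ε η : ℝ) (hε : 0 < ε) (hε1 : ε ≤ 1 / 2)
    (hη : 0 < η) (D : Finset ℕ) (hD : ∀ d ∈ D, d < b)
    (hB : ∀ θ : ℝ, ∑ s ∈ range b, ‖FA D (θ + (s : ℝ) / b)‖ ≤ D.card * (b : ℝ) ^ (ε / 8)) :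
    ∀ᶠ k : ℕ in atTop, ∀ H H1 : ℕ, ((b ^ k : ℕ) : ℝ) ^ (ε / 2) ≤ H → H ≤ H1 →
      (H1 : ℝ) ≤ ((b ^ k : ℕ) : ℝ) / (1 + Real.log ((b ^ k : ℕ) : ℝ)) ^ 62 →
      |TL (DS b D k) H / H - TL (DS b D k) H1 / H1| ≤ (D.card : ℝ) ^ k * η := by
  obtain ⟨C, hC⟩ := vinoP
  have hC' : VC C := hC
  have hbr : (2 : ℝ) ≤ b := by exact_mod_cast hb
  have hb1 : (1 : ℝ) ≤ b := by linarith
  have hb0 : (0 : ℝ) < b := by linarith
  have htend : Tendsto (fun k : ℕ => b ^ k) atTop atTop :=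
    tendsto_pow_atTop_atTop_of_one_lt (by omega)
  filter_upwards [htend.eventually (ev_err C hC.1 b hb ε η hε hε1 hη),
    htend.eventually (ev_L 2), htend.eventually (ev_log 30 (2 ^ 30) 1 (by norm_num))] with
    k h1 h4 h7 H H1 hHlow hHH1 hH1up
  rw [Real.rpow_one] at h7
  obtain ⟨N, hN⟩ : ∃ N : ℕ, N = b ^ k := ⟨_, rfl⟩
  have hNr : (N : ℝ) = (b : ℝ) ^ k := by rw [hN]; push_cast; rfl
  rw [← hN] at h1 h4 h7 hHlow hH1up
  have hN1 : 1 ≤ N := by rw [hN]; exact Nat.pow_pos (by omega)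
  have hN1r : (1 : ℝ) ≤ N := by exact_mod_cast hN1
  have hN0 : (0 : ℝ) < N := by linarith
  set L : ℝ := 1 + Real.log N with hL
  have hL1 : 1 ≤ L := by linarith
  have hL0 : 0 < L := by linarith
  have hL2 : L ≤ 2 * Real.log N := by linarith
  have hH1 : 1 ≤ H := by
    have : (1 : ℝ) ≤ H := (Real.one_le_rpow hN1r (by positivity)).trans hHlow
    exact_mod_cast this
  have hH1N : b ^ k + H1 < b ^ (k + 1) := by
    have a1 : (H1 : ℝ) < N := by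
      refine lt_of_le_of_lt hH1up ?_
      rw [div_lt_iff₀ (by positivity)]
      have a3 : L ≤ L ^ 62 := by
        calc L = L ^ 1 := (pow_one L).symm
          _ ≤ _ := pow_le_pow_right₀ hL1 (by norm_num)
      have a4 : (1 : ℝ) < L ^ 62 := by linarith
      calc (N : ℝ) = N * 1 := (mul_one _).symm
        _ < N * L ^ 62 := mul_lt_mul_of_pos_left a4 hN0
    have a2 : H1 < b ^ k := by rw [← hN]; exact_mod_cast a1
    have e : b ^ (k + 1) = b * b ^ k := by ring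
    rw [e]
    calc b ^ k + H1 < b ^ k + b ^ k := by omega
      _ = 2 * b ^ k := by ring
      _ ≤ b * b ^ k := Nat.mul_le_mul_right _ hb
  obtain ⟨n, hn1, hn2⟩ := exists_nat_pow_near (show (1 : ℝ) ≤ L ^ 30 from one_le_pow₀ hL1)
    (show (1 : ℝ) < b by linarith)
  have hL30 : L ^ 30 ≤ N := by
    calc L ^ 30 ≤ (2 * Real.log N) ^ 30 := pow_le_pow_left₀ hL0.le hL2 30
      _ = 2 ^ 30 * Real.log N ^ 30 := by rw [mul_pow]
      _ ≤ N := h7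
  have hnk : n ≤ k := by
    by_contra hcon
    push Not at hcon
    have a1 : (b : ℝ) ^ n ≤ (b : ℝ) ^ k := by rw [← hNr]; linarith
    have a2 : (b : ℝ) ^ k < (b : ℝ) ^ n := pow_lt_pow_right₀ (by linarith) hcon
    linarith
  have hest := est hC' hb hD (κ := ε / 8) (by positivity) (by linarith) hB
    (show n + 1 ≤ k + 1 by omega) H H1 hH1 hHH1 hH1N
  have herr := h1 k hN H H1 hHlow hH1up ((b : ℝ) ^ (n + 1)) hn2.le
    (by rw [pow_succ, mul_comm]; exact mul_le_mul_of_nonneg_left hn1 hb0.le)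
  refine hest.trans ?_
  apply mul_le_mul_of_nonneg_left _ (by positivity)
  rw [← hN, ← hNr, ← hL]
  exact herr

/-- long intervals -/
lemma longer (b : ℕ) (hb : 2 ≤ b) (δ : ℝ) (hδ : 0 < δ) (hδ1 : δ ≤ 1 / 2) (D : Finset ℕ)
    (hD : ∀ d ∈ D, d < b) (hDδ : 1 / δ ≤ D.card) :
    ∀ᶠ k : ℕ in atTop, ∀ H1 : ℕ,
      (H1 : ℝ) ≤ ((b ^ (k + 1) : ℕ) : ℝ) / (1 + Real.log ((b ^ (k + 1) : ℕ) : ℝ)) ^ 62 →
      ((b ^ (k + 1) : ℕ) : ℝ) / (1 + Real.log ((b ^ (k + 1) : ℕ) : ℝ)) ^ 62 / 2 ≤ H1 →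
      (1 - 2 * δ) * (D.card : ℝ) ^ (k + 1) ≤ TL (DS b D (k + 1)) H1 / H1 := by
  have hbr : (2 : ℝ) ≤ b := by exact_mod_cast hb
  have hb0 : (0 : ℝ) < b := by linarith
  have htend : Tendsto (fun k : ℕ => b ^ (k + 1)) atTop atTop :=
    (tendsto_pow_atTop_atTop_of_one_lt (by omega)).comp (tendsto_add_atTop_nat 1)
  filter_upwards [htend.eventually (pnt_unif 64), htend.eventually (ev_L (b + 2 + 2 ^ 64 / δ))] with
    k h3 h4 H1 hH1up hH1low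
  obtain ⟨N, hN⟩ : ∃ N : ℕ, N = b ^ (k + 1) := ⟨_, rfl⟩
  rw [← hN] at h3 h4 hH1up hH1low
  have hN1 : 1 ≤ N := by rw [hN]; exact Nat.pow_pos (by omega)
  have hN1r : (1 : ℝ) ≤ N := by exact_mod_cast hN1
  have hN0 : (0 : ℝ) < N := by linarith
  obtain ⟨ℓ, hℓ⟩ : ∃ ℓ : ℝ, ℓ = Real.log N := ⟨_, rfl⟩
  rw [← hℓ] at h3 h4 hH1up hH1low
  have hq1 : 0 < 2 ^ 64 / δ := by positivity
  have hℓ2 : b + 2 ≤ ℓ := by linarith
  have hℓ0 : 0 < ℓ := by linarith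
  have hℓ1 : 1 ≤ ℓ := by linarith
  obtain ⟨L, hL⟩ : ∃ L : ℝ, L = 1 + ℓ := ⟨_, rfl⟩
  rw [← hL] at hH1up hH1low
  have hL1 : 1 ≤ L := by linarith
  have hL0 : 0 < L := by linarith
  have hL2 : L ≤ 2 * ℓ := by linarith
  have hL62 : L ^ 62 ≤ 2 ^ 62 * ℓ ^ 62 := by
    rw [← mul_pow]; exact pow_le_pow_left₀ hL0.le hL2 62
  obtain ⟨X, hX⟩ : ∃ X : ℕ, X = b ^ k := ⟨_, rfl⟩
  have hNX : N = b * X := by rw [hN, hX]; ring
  have hNXr : (N : ℝ) = b * X := by rw [hNX]; push_cast; ring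
  have hX1 : 1 ≤ X := by rw [hX]; exact Nat.pow_pos (by omega)
  have hX0 : (0 : ℝ) < X := by exact_mod_cast hX1
  have hH1X : H1 < X := by
    have a1 : (N : ℝ) / L ^ 62 < X := by
      rw [div_lt_iff₀ (by positivity), hNXr]
      have a2 : (b : ℝ) < L := by linarith
      have a3 : L ≤ L ^ 62 := by
        calc L = L ^ 1 := (pow_one L).symm
          _ ≤ _ := pow_le_pow_right₀ hL1 (by norm_num)
      calc (b : ℝ) * X = X * b := mul_comm _ _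
        _ < X * L ^ 62 := mul_lt_mul_of_pos_left (by linarith) hX0
    have : (H1 : ℝ) < X := lt_of_le_of_lt hH1up a1
    exact_mod_cast this
  obtain ⟨A, hA⟩ : ∃ A : Finset ℕ, A = DS b D (k + 1) := ⟨_, rfl⟩
  rw [← hA]
  obtain ⟨m0, hm0⟩ : ∃ m0 : ℝ, m0 = (D.card : ℝ) ^ (k + 1) := ⟨_, rfl⟩
  rw [← hm0]
  have hm00 : 0 ≤ m0 := by rw [hm0]; positivity
  have hAcard : (A.card : ℝ) = m0 := by rw [hA, DS_card hD, hm0]; push_cast; rfl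
  have hAN : ∀ a ∈ A, a ≤ N := by
    intro a ha
    rw [hA] at ha
    rw [hN]
    exact (DS_lt hD (k + 1) a ha).le
  have hsmall : ((A.filter (fun x => x < X)).card : ℝ) ≤ δ * m0 := by
    have a1 := small_filter hD k
    rw [← hA, ← hX] at a1
    have a2 : ((A.filter (fun x => x < X)).card : ℝ) ≤ (D.card : ℝ) ^ k := by exact_mod_cast a1
    refine a2.trans ?_
    rw [hm0, pow_succ]
    have a3 : 1 ≤ δ * D.card := by
      rw [div_le_iff₀ hδ] at hDδ; linarith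
    have a4 : 0 ≤ (D.card : ℝ) ^ k := by positivity
    calc (D.card : ℝ) ^ k = (D.card : ℝ) ^ k * 1 := (mul_one _).symm
      _ ≤ (D.card : ℝ) ^ k * (δ * D.card) := mul_le_mul_of_nonneg_left a3 a4
      _ = _ := by ring
  have hlarge : (1 - δ) * m0 ≤ ((A.filter (fun x => X ≤ x)).card : ℝ) := by
    have a1 : A.card = (A.filter (fun x => X ≤ x)).card + (A.filter (fun x => ¬ (X ≤ x))).card :=
      (card_filter_add_card_filter_not _).symm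
    have a2 : A.filter (fun x => ¬ (X ≤ x)) = A.filter (fun x => x < X) := by
      apply filter_congr
      intro x _
      exact not_le
    rw [a2] at a1
    have a3 : (A.card : ℝ) = ((A.filter (fun x => X ≤ x)).card : ℝ) +
        ((A.filter (fun x => x < X)).card : ℝ) := by exact_mod_cast a1
    rw [hAcard] at a3
    linarith
  have hlow := low_TL (A := A) (N := N) (X := X) (H := H1) hAN hH1X h3
  have hH1r0 : (0 : ℝ) < H1 := lt_of_lt_of_le (by positivity) hH1low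
  have hE : 2 * ((N : ℝ) / ℓ ^ 64) ≤ δ * H1 := by
    have a1 : 2 * ((N : ℝ) / ℓ ^ 64) ≤ δ * (N / L ^ 62 / 2) := by
      have a2 : 2 ^ 64 / δ ≤ ℓ := by linarith
      rw [div_le_iff₀ hδ] at a2
      have a3 : 4 * L ^ 62 ≤ δ * ℓ ^ 64 := by
        calc 4 * L ^ 62 ≤ 4 * (2 ^ 62 * ℓ ^ 62) := mul_le_mul_of_nonneg_left hL62 (by norm_num)
          _ = 2 ^ 64 * ℓ ^ 62 := by ring
          _ ≤ (ℓ * δ) * ℓ ^ 62 := mul_le_mul_of_nonneg_right a2 (by positivity)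
          _ = δ * ℓ ^ 63 := by ring
          _ ≤ δ * ℓ ^ 64 := by
              apply mul_le_mul_of_nonneg_left _ hδ.le
              exact pow_le_pow_right₀ hℓ1 (by norm_num)
      rw [div_div, ← mul_div_assoc, ← mul_div_assoc, div_le_div_iff₀ (by positivity) (by positivity)]
      calc 2 * (N : ℝ) * (L ^ 62 * 2) = N * (4 * L ^ 62) := by ring
        _ ≤ N * (δ * ℓ ^ 64) := mul_le_mul_of_nonneg_left a3 hN0.le
        _ = _ := by ring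
    exact a1.trans (mul_le_mul_of_nonneg_left hH1low hδ.le)
  rw [le_div_iff₀ hH1r0]
  refine le_trans ?_ hlow
  have b1 : (1 - δ) * H1 ≤ (H1 : ℝ) - 2 * (N / ℓ ^ 64) := by linarith
  have b2 : 0 ≤ (1 - δ) * (H1 : ℝ) := mul_nonneg (by linarith) hH1r0.le
  calc (1 - 2 * δ) * m0 * H1 ≤ ((1 - δ) * (1 - δ)) * m0 * H1 := by
        apply mul_le_mul_of_nonneg_right _ hH1r0.le
        apply mul_le_mul_of_nonneg_right _ hm00
        have : 0 ≤ δ * δ := by positivity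
        linarith
    _ = ((1 - δ) * m0) * ((1 - δ) * H1) := by ring
    _ ≤ ((A.filter (fun x => X ≤ x)).card : ℝ) * ((H1 : ℝ) - 2 * (N / ℓ ^ 64)) := by
        apply mul_le_mul hlarge b1 b2 (Nat.cast_nonneg _)

/-- the lengths -/
lemma lengths (b : ℕ) (hb : 2 ≤ b) (ε : ℝ) (hε : 0 < ε) (hε1 : ε ≤ 1 / 2) :
    ∀ᶠ k : ℕ in atTop, ∃ H H1 : ℕ, ((b ^ (k + 1) : ℕ) : ℝ) ^ (ε / 2) ≤ H ∧
      (H : ℝ) < ((b ^ k : ℕ) : ℝ) ^ ε ∧ (H : ℝ) ≤ ((b ^ (k + 1) : ℕ) : ℝ) ^ (1 / 2 : ℝ) ∧ H ≤ H1 ∧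
      (H1 : ℝ) ≤ ((b ^ (k + 1) : ℕ) : ℝ) / (1 + Real.log ((b ^ (k + 1) : ℕ) : ℝ)) ^ 62 ∧
      ((b ^ (k + 1) : ℕ) : ℝ) / (1 + Real.log ((b ^ (k + 1) : ℕ) : ℝ)) ^ 62 / 2 ≤ H1 := by
  have hbr : (2 : ℝ) ≤ b := by exact_mod_cast hb
  have hb1 : (1 : ℝ) ≤ b := by linarith
  have hb0 : (0 : ℝ) < b := by linarith
  have htend : Tendsto (fun k : ℕ => b ^ (k + 1)) atTop atTop :=
    (tendsto_pow_atTop_atTop_of_one_lt (by omega)).comp (tendsto_add_atTop_nat 1)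
  filter_upwards [htend.eventually (ev_L 2),
    htend.eventually (ev_log 0 (2 * b) (ε / 2) (by positivity)),
    htend.eventually (ev_log 62 (2 ^ 64) (1 / 2) (by norm_num))] with k h4 h5 h6
  obtain ⟨N, hN⟩ : ∃ N : ℕ, N = b ^ (k + 1) := ⟨_, rfl⟩
  rw [← hN] at h4 h5 h6 ⊢
  rw [pow_zero, mul_one] at h5
  have hN1 : 1 ≤ N := by rw [hN]; exact Nat.pow_pos (by omega)
  have hN1r : (1 : ℝ) ≤ N := by exact_mod_cast hN1
  have hN0 : (0 : ℝ) < N := by linarith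
  obtain ⟨ℓ, hℓ⟩ : ∃ ℓ : ℝ, ℓ = Real.log N := ⟨_, rfl⟩
  rw [← hℓ] at h4 h6 ⊢
  have hℓ0 : 0 < ℓ := by linarith
  obtain ⟨L, hL⟩ : ∃ L : ℝ, L = 1 + ℓ := ⟨_, rfl⟩
  rw [← hL]
  have hL1 : 1 ≤ L := by linarith
  have hL0 : 0 < L := by linarith
  have hL2 : L ≤ 2 * ℓ := by linarith
  obtain ⟨X, hX⟩ : ∃ X : ℕ, X = b ^ k := ⟨_, rfl⟩
  rw [← hX]
  have hNX : N = b * X := by rw [hN, hX]; ring
  have hNXr : (N : ℝ) = b * X := by rw [hNX]; push_cast; ring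
  have hX1 : 1 ≤ X := by rw [hX]; exact Nat.pow_pos (by omega)
  have hX0 : (0 : ℝ) < X := by exact_mod_cast hX1
  have hXε : (N : ℝ) ^ ε / b ≤ (X : ℝ) ^ ε := by
    have e : (X : ℝ) = N / b := by rw [hNXr]; field_simp
    rw [e, Real.div_rpow hN0.le hb0.le]
    apply div_le_div_of_nonneg_left (by positivity) (by positivity)
    calc (b : ℝ) ^ ε ≤ (b : ℝ) ^ (1 : ℝ) := Real.rpow_le_rpow_of_exponent_le hb1 (by linarith)
      _ = b := Real.rpow_one _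
  have hNε : (N : ℝ) ^ ε = (N : ℝ) ^ (ε / 2) * (N : ℝ) ^ (ε / 2) := by
    rw [← Real.rpow_add hN0]; congr 1; ring
  have hNε2 : 2 ≤ (N : ℝ) ^ (ε / 2) := by linarith
  have hXbig : 2 * (N : ℝ) ^ (ε / 2) ≤ (X : ℝ) ^ ε := by
    refine le_trans ?_ hXε
    rw [le_div_iff₀ hb0, hNε]
    calc 2 * (N : ℝ) ^ (ε / 2) * b = (N : ℝ) ^ (ε / 2) * (2 * b) := by ring
      _ ≤ _ := mul_le_mul_of_nonneg_left h5 (by positivity)
  have hfl : (X : ℝ) ^ ε - 1 < (⌊(X : ℝ) ^ ε⌋₊ : ℝ) := by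
    have := Nat.lt_floor_add_one ((X : ℝ) ^ ε); linarith
  have hfl1 : 1 ≤ ⌊(X : ℝ) ^ ε⌋₊ := Nat.le_floor (by push_cast; linarith)
  have hHr : ((⌊(X : ℝ) ^ ε⌋₊ - 1 : ℕ) : ℝ) = (⌊(X : ℝ) ^ ε⌋₊ : ℝ) - 1 := by
    rw [Nat.cast_sub hfl1]; push_cast; ring
  have hHup : ((⌊(X : ℝ) ^ ε⌋₊ - 1 : ℕ) : ℝ) < (X : ℝ) ^ ε := by
    have := Nat.floor_le (show 0 ≤ (X : ℝ) ^ ε by positivity)
    rw [hHr]; linarith
  have hXN : (X : ℝ) ≤ N := by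
    rw [hNXr]
    calc (X : ℝ) = 1 * X := (one_mul _).symm
      _ ≤ _ := mul_le_mul_of_nonneg_right hb1 hX0.le
  have hHN : ((⌊(X : ℝ) ^ ε⌋₊ - 1 : ℕ) : ℝ) ≤ (N : ℝ) ^ (1 / 2 : ℝ) := by
    refine hHup.le.trans ?_
    calc (X : ℝ) ^ ε ≤ (N : ℝ) ^ ε := Real.rpow_le_rpow hX0.le hXN hε.le
      _ ≤ _ := Real.rpow_le_rpow_of_exponent_le hN1r hε1
  have hL62 : L ^ 62 ≤ 2 ^ 62 * ℓ ^ 62 := by
    rw [← mul_pow]; exact pow_le_pow_left₀ hL0.le hL2 62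
  have hsq : (N : ℝ) ^ (1 / 2 : ℝ) * (N : ℝ) ^ (1 / 2 : ℝ) = N := by
    rw [← Real.rpow_add hN0]; norm_num
  have hhalf1 : 1 ≤ (N : ℝ) ^ (1 / 2 : ℝ) := Real.one_le_rpow hN1r (by norm_num)
  have hbig : 2 * (N : ℝ) ^ (1 / 2 : ℝ) ≤ N / L ^ 62 := by
    rw [le_div_iff₀ (by positivity)]
    have c0 : 0 ≤ (N : ℝ) ^ (1 / 2 : ℝ) := by positivity
    have c1 : 2 * L ^ 62 ≤ (N : ℝ) ^ (1 / 2 : ℝ) := by
      refine le_trans ?_ h6
      have c2 : 0 ≤ ℓ ^ 62 := by positivity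
      calc 2 * L ^ 62 ≤ 2 * (2 ^ 62 * ℓ ^ 62) := mul_le_mul_of_nonneg_left hL62 (by norm_num)
        _ = 2 ^ 63 * ℓ ^ 62 := by ring
        _ ≤ 2 ^ 64 * ℓ ^ 62 := mul_le_mul_of_nonneg_right (by norm_num) c2
    calc 2 * (N : ℝ) ^ (1 / 2 : ℝ) * L ^ 62 = (N : ℝ) ^ (1 / 2 : ℝ) * (2 * L ^ 62) := by ring
      _ ≤ (N : ℝ) ^ (1 / 2 : ℝ) * (N : ℝ) ^ (1 / 2 : ℝ) := mul_le_mul_of_nonneg_left c1 c0
      _ = N := hsq
  have hH1low : (N : ℝ) / L ^ 62 / 2 ≤ (⌊(N : ℝ) / L ^ 62⌋₊ : ℝ) := by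
    have := Nat.lt_floor_add_one ((N : ℝ) / L ^ 62)
    linarith
  refine ⟨⌊(X : ℝ) ^ ε⌋₊ - 1, ⌊(N : ℝ) / L ^ 62⌋₊, ?_, hHup, hHN, ?_, Nat.floor_le (by positivity),
    hH1low⟩
  · rw [hHr]; linarith
  · have : ((⌊(X : ℝ) ^ ε⌋₊ - 1 : ℕ) : ℝ) ≤ (⌊(N : ℝ) / L ^ 62⌋₊ : ℝ) := by linarith
    exact_mod_cast this

end Pool.Agent.Y851.DG
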