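import Pool.Agent.W301.SS.Core

/-! Restricted digits: the sets, their transforms, the `L¹` bound near `0`. -/

set_option autoImplicit false

namespace Pool.Agent.Y851.DG
open Finset
open Pool.Agent.H807R2.Dav Pool.Agent.W301.SS

/-- the integers below `b ^ k` all of whose `k` digits in base `b` lie in `D` -/
def DS (b : ℕ) (D : Finset ℕ) : ℕ → Finset ℕ
  | 0 => {0}
  | k + 1 => ((DS b D k) ×ˢ D).image (fun x => x.1 + b ^ k * x.2)

lemma DS_lt {b : ℕ} {D : Finset ℕ} (hD : ∀ d ∈ D, d < b) (k : ℕ) : ∀ x ∈ DS b D k, x < b ^ k := by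
  induction k with
  | zero => intro x hx; simp [DS] at hx; simp [hx]
  | succ k ih =>
    intro x hx
    simp only [DS, mem_image, mem_product, Prod.exists] at hx
    obtain ⟨y, d, ⟨hy, hd⟩, rfl⟩ := hx
    have h1 := ih y hy
    have h2 := hD d hd
    calc y + b ^ k * d < b ^ k + b ^ k * d := by omega
      _ = b ^ k * (d + 1) := by ring
      _ ≤ b ^ k * b := Nat.mul_le_mul_left _ h2
      _ = b ^ (k + 1) := by ring

lemma DS_inj {b : ℕ} {D : Finset ℕ} (hD : ∀ d ∈ D, d < b) (k : ℕ) :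
    Set.InjOn (fun x : ℕ × ℕ => x.1 + b ^ k * x.2) (↑((DS b D k) ×ˢ D) : Set (ℕ × ℕ)) := by
  rintro ⟨y, d⟩ h ⟨y', d'⟩ h' he
  rw [mem_coe, mem_product] at h h'
  simp only at he h h'
  have h1 := DS_lt hD k y h.1
  have h2 := DS_lt hD k y' h'.1
  have hb : 0 < b ^ k := by omega
  have e1 : d = d' := by
    have a1 : (y + b ^ k * d) / b ^ k = d := by
      rw [Nat.add_mul_div_left _ _ hb, Nat.div_eq_of_lt h1, zero_add]
    have a2 : (y' + b ^ k * d') / b ^ k = d' := by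
      rw [Nat.add_mul_div_left _ _ hb, Nat.div_eq_of_lt h2, zero_add]
    rw [← a1, ← a2, he]
  subst e1
  have : y = y' := by omega
  rw [this]

lemma DS_card {b : ℕ} {D : Finset ℕ} (hD : ∀ d ∈ D, d < b) (k : ℕ) :
    (DS b D k).card = D.card ^ k := by
  induction k with
  | zero => simp [DS]
  | succ k ih =>
    have : DS b D (k + 1) = ((DS b D k) ×ˢ D).image (fun x => x.1 + b ^ k * x.2) := rfl
    rw [this, card_image_of_injOn (DS_inj hD k), card_product, ih, pow_succ]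

lemma DS_mem {b : ℕ} {D : Finset ℕ} (hD : ∀ d ∈ D, d < b) (k : ℕ) : ∀ x : ℕ,
    x ∈ DS b D k ↔ x < b ^ k ∧ ∀ i < k, x / b ^ i % b ∈ D := by
  induction k with
  | zero => intro x; simp [DS]
  | succ k ih =>
    intro x
    have e0 : DS b D (k + 1) = ((DS b D k) ×ˢ D).image (fun x => x.1 + b ^ k * x.2) := rfl
    constructor
    · intro hx
      refine ⟨DS_lt hD (k + 1) x hx, ?_⟩
      rw [e0, mem_image] at hx
      obtain ⟨⟨y, d⟩, hyd, rfl⟩ := hx
      rw [mem_product] at hyd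
      simp only at hyd ⊢
      have hy := (ih y).1 hyd.1
      have hb0 : 0 < b := by have := hD d hyd.2; omega
      have hb : 0 < b ^ k := Nat.pow_pos hb0
      intro i hi
      rcases Nat.lt_succ_iff_lt_or_eq.1 hi with h | h
      · have h1 := hy.2 i h
        have e1 : (y + b ^ k * d) / b ^ i % b = y / b ^ i % b := by
          obtain ⟨j, rfl⟩ : ∃ j, k = i + 1 + j := ⟨k - (i + 1), by omega⟩
          have e2 : b ^ (i + 1 + j) * d = b ^ i * (b * (b ^ j * d)) := by ring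
          rw [e2, Nat.add_mul_div_left _ _ (Nat.pow_pos hb0), Nat.add_mul_mod_self_left]
        rw [e1]; exact h1
      · subst h
        rw [Nat.add_mul_div_left _ _ hb, Nat.div_eq_of_lt hy.1, zero_add,
          Nat.mod_eq_of_lt (hD d hyd.2)]
        exact hyd.2
    · rintro ⟨h1, h2⟩
      have h3 := h2 k (Nat.lt_succ_self k)
      have hb0 : 0 < b := by have := hD _ h3; omega
      have hb : 0 < b ^ k := Nat.pow_pos hb0
      have h4 : x / b ^ k < b := by
        rw [Nat.div_lt_iff_lt_mul hb, mul_comm]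
        rw [pow_succ] at h1; exact h1
      rw [Nat.mod_eq_of_lt h4] at h3
      rw [e0, mem_image]
      refine ⟨(x % b ^ k, x / b ^ k), ?_, Nat.mod_add_div x (b ^ k)⟩
      rw [mem_product]
      refine ⟨(ih _).2 ⟨Nat.mod_lt _ hb, fun i hi => ?_⟩, h3⟩
      have h5 := h2 i (by omega)
      have e1 : x % b ^ k / b ^ i % b = x / b ^ i % b := by
        conv_rhs => rw [← Nat.mod_add_div x (b ^ k)]
        obtain ⟨j, rfl⟩ : ∃ j, k = i + 1 + j := ⟨k - (i + 1), by omega⟩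
        have e2 : b ^ (i + 1 + j) * (x / b ^ (i + 1 + j)) =
            b ^ i * (b * (b ^ j * (x / b ^ (i + 1 + j)))) := by ring
        rw [e2, Nat.add_mul_div_left _ _ (Nat.pow_pos hb0), Nat.add_mul_mod_self_left]
      simp only
      rw [e1]; exact h5

lemma FA_DS {b : ℕ} {D : Finset ℕ} (hD : ∀ d ∈ D, d < b) (k : ℕ) (x : ℝ) :
    FA (DS b D k) x = ∏ l ∈ range k, FA D ((b : ℝ) ^ l * x) := by
  induction k with
  | zero => simp [DS, FA, ee_zero]
  | succ k ih =>
    rw [prod_range_succ, ← ih]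
    have e0 : DS b D (k + 1) = ((DS b D k) ×ˢ D).image (fun x => x.1 + b ^ k * x.2) := rfl
    unfold FA
    rw [e0, sum_image (DS_inj hD k), sum_mul_sum, sum_product]
    apply sum_congr rfl
    intro y _
    apply sum_congr rfl
    intro d _
    rw [← ee_add]
    congr 1
    push_cast; ring

/-- the transform at the negative frequencies -/
lemma FA_neg (A : Finset ℕ) (x : ℝ) : ‖FA A (-x)‖ = ‖FA A x‖ := by
  have : FA A (-x) = (starRingEnd ℂ) (FA A x) := by
    unfold FA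
    rw [map_sum]
    apply sum_congr rfl
    intro a _
    rw [star_ee]
    congr 1; ring
  rw [this, RCLike.norm_conj]

lemma FA_le (A : Finset ℕ) (x : ℝ) : ‖FA A x‖ ≤ A.card := by
  unfold FA
  refine (norm_sum_le _ _).trans ?_
  simp [norm_ee]

lemma FA_add_int (A : Finset ℕ) (x : ℝ) (n : ℤ) : FA A (x + n) = FA A x := by
  unfold FA
  apply sum_congr rfl
  intro a _
  have : (a : ℝ) * (x + n) = a * x + ((a * n : ℤ) : ℝ) := by push_cast; ring
  rw [this, ee_add_int]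

/-- the sum over a complete system modulo `b ^ i` -/
lemma TT_sum {b : ℕ} (hb : 1 ≤ b) (D : Finset ℕ) (B : ℝ) (hB0 : 0 ≤ B)
    (hB : ∀ θ : ℝ, ∑ s ∈ range b, ‖FA D (θ + (s : ℝ) / b)‖ ≤ B) (i : ℕ) :
    ∑ r ∈ range (b ^ (i + 1)), ∏ e ∈ Ico 2 (i + 2), ‖FA D ((r : ℝ) / (b : ℝ) ^ e)‖ ≤ b * B ^ i := by
  have hb0 : (0 : ℝ) < b := by exact_mod_cast hb
  induction i with
  | zero => simp
  | succ i ih =>
    have e1 : ∑ r ∈ range (b ^ (i + 1 + 1)), ∏ e ∈ Ico 2 (i + 1 + 2), ‖FA D ((r : ℝ) / (b : ℝ) ^ e)‖ =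
        ∑ r ∈ range (b ^ (i + 1)), ∑ s ∈ range b, ∏ e ∈ Ico 2 (i + 1 + 2),
          ‖FA D (((r + b ^ (i + 1) * s : ℕ) : ℝ) / (b : ℝ) ^ e)‖ := by
      rw [← sum_product']
      symm
      apply sum_nbij' (fun x => x.1 + b ^ (i + 1) * x.2) (fun r => (r % b ^ (i + 1), r / b ^ (i + 1)))
      · rintro ⟨r, s⟩ h
        rw [mem_product, mem_range, mem_range] at h
        rw [mem_range]
        simp only at h ⊢
        calc r + b ^ (i + 1) * s < b ^ (i + 1) + b ^ (i + 1) * s := by omega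
          _ = b ^ (i + 1) * (s + 1) := by ring
          _ ≤ b ^ (i + 1) * b := Nat.mul_le_mul_left _ h.2
          _ = b ^ (i + 1 + 1) := by ring
      · intro r h
        rw [mem_range] at h
        rw [mem_product, mem_range, mem_range]
        refine ⟨Nat.mod_lt _ (Nat.pow_pos hb), ?_⟩
        rw [Nat.div_lt_iff_lt_mul (Nat.pow_pos hb), mul_comm]
        rw [pow_succ] at h; exact h
      · rintro ⟨r, s⟩ h
        rw [mem_product, mem_range, mem_range] at h
        simp only at h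
        have hpos : 0 < b ^ (i + 1) := Nat.pow_pos hb
        simp only
        rw [Nat.add_mul_mod_self_left, Nat.mod_eq_of_lt h.1, Nat.add_mul_div_left _ _ hpos,
          Nat.div_eq_of_lt h.1, zero_add]
      · intro r _
        exact Nat.mod_add_div r _
      · intro x _
        rfl
    rw [e1]
    have e2 : ∀ r ∈ range (b ^ (i + 1)), ∑ s ∈ range b, ∏ e ∈ Ico 2 (i + 1 + 2),
          ‖FA D (((r + b ^ (i + 1) * s : ℕ) : ℝ) / (b : ℝ) ^ e)‖ ≤
          (∏ e ∈ Ico 2 (i + 2), ‖FA D ((r : ℝ) / (b : ℝ) ^ e)‖) * B := by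
      intro r _
      have e3 : ∀ s ∈ range b, ∏ e ∈ Ico 2 (i + 1 + 2),
          ‖FA D (((r + b ^ (i + 1) * s : ℕ) : ℝ) / (b : ℝ) ^ e)‖ =
          (∏ e ∈ Ico 2 (i + 2), ‖FA D ((r : ℝ) / (b : ℝ) ^ e)‖) *
            ‖FA D ((r : ℝ) / (b : ℝ) ^ (i + 2) + (s : ℝ) / b)‖ := by
        intro s _
        rw [show i + 1 + 2 = (i + 2) + 1 by ring, prod_Ico_succ_top (by omega)]
        congr 1
        · apply prod_congr rfl
          intro e he
          rw [mem_Ico] at he
          obtain ⟨j, hj⟩ : ∃ j, i + 1 = e + j := ⟨i + 1 - e, by omega⟩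
          have e4 : ((r + b ^ (i + 1) * s : ℕ) : ℝ) / (b : ℝ) ^ e =
              (r : ℝ) / (b : ℝ) ^ e + ((b ^ j * s : ℕ) : ℤ) := by
            rw [hj]
            push_cast
            rw [pow_add]
            field_simp
          rw [e4, FA_add_int]
        · congr 2
          push_cast
          rw [show i + 2 = (i + 1) + 1 by ring, pow_succ (b : ℝ) (i + 1)]
          field_simp
      rw [sum_congr rfl e3, ← mul_sum]
      exact mul_le_mul_of_nonneg_left (hB _) (prod_nonneg fun _ _ => norm_nonneg _)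
    refine (sum_le_sum e2).trans ?_
    rw [← sum_mul]
    calc _ ≤ ((b : ℝ) * B ^ i) * B := mul_le_mul_of_nonneg_right ih hB0
      _ = _ := by ring

/-- the `L¹` bound near `0` -/
lemma L1 {b : ℕ} (hb : 1 ≤ b) {D : Finset ℕ} (hD : ∀ d ∈ D, d < b) (B : ℝ) (hB0 : 0 ≤ B)
    (hB : ∀ θ : ℝ, ∑ s ∈ range b, ‖FA D (θ + (s : ℝ) / b)‖ ≤ B) {k i : ℕ} (hi : i ≤ k) :
    ∑ r ∈ range (b ^ (i + 1)), ‖FA (DS b D k) ((r : ℝ) / ((b ^ (k + 1) : ℕ) : ℝ))‖ ≤
      b * B ^ i * (D.card : ℝ) ^ (k - i) := by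
  have hb0 : (0 : ℝ) < b := by exact_mod_cast hb
  have h1 : ∀ r ∈ range (b ^ (i + 1)), ‖FA (DS b D k) ((r : ℝ) / ((b ^ (k + 1) : ℕ) : ℝ))‖ ≤
      (∏ e ∈ Ico 2 (i + 2), ‖FA D ((r : ℝ) / (b : ℝ) ^ e)‖) * (D.card : ℝ) ^ (k - i) := by
    intro r _
    rw [FA_DS hD, norm_prod]
    have e1 : ∏ l ∈ range k, ‖FA D ((b : ℝ) ^ l * ((r : ℝ) / ((b ^ (k + 1) : ℕ) : ℝ)))‖ =
        ∏ e ∈ Ico 2 (k + 2), ‖FA D ((r : ℝ) / (b : ℝ) ^ e)‖ := by
      rw [prod_Ico_eq_prod_range, show k + 2 - 2 = k by omega, ← prod_range_reflect]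
      apply prod_congr rfl
      intro l hl
      rw [mem_range] at hl
      congr 2
      push_cast
      have : k + 1 = (k - 1 - l) + (2 + l) := by omega
      rw [this, pow_add]
      field_simp
    rw [e1, ← prod_Ico_consecutive _ (show 2 ≤ i + 2 by omega) (show i + 2 ≤ k + 2 by omega)]
    apply mul_le_mul_of_nonneg_left _ (prod_nonneg fun _ _ => norm_nonneg _)
    calc ∏ e ∈ Ico (i + 2) (k + 2), ‖FA D ((r : ℝ) / (b : ℝ) ^ e)‖ ≤
          ∏ _e ∈ Ico (i + 2) (k + 2), (D.card : ℝ) :=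
          prod_le_prod (fun _ _ => norm_nonneg _) fun _ _ => FA_le _ _
      _ = _ := by rw [prod_const, Nat.card_Ico]; congr 1; omega
  refine (sum_le_sum h1).trans ?_
  rw [← sum_mul]
  exact mul_le_mul_of_nonneg_right (TT_sum hb D B hB0 hB i) (by positivity)

/-- the sum for one digit: an interval with a few elements removed -/
lemma one_digit {b u ℓ : ℕ} (hb : 1 ≤ b) (hℓ : ℓ ≤ b) {D : Finset ℕ} (hD : D ⊆ Ico u (u + ℓ)) (θ : ℝ) :
    ∑ s ∈ range b, ‖FA D (θ + (s : ℝ) / b)‖ ≤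
      42 * b * (1 + Real.log b) + b * ((Ico u (u + ℓ) \ D).card : ℝ) := by
  have hb0 : (0 : ℝ) < b := by exact_mod_cast hb
  have hlog : 0 ≤ Real.log b := Real.log_nonneg (by exact_mod_cast hb)
  have h1 : ∀ s ∈ range b, ‖FA D (θ + (s : ℝ) / b)‖ ≤
      KK ℓ (θ + s * (1 / (b : ℝ))) + ((Ico u (u + ℓ) \ D).card : ℝ) := by
    intro s _
    have e1 : FA D (θ + (s : ℝ) / b) = FA (Ico u (u + ℓ)) (θ + (s : ℝ) / b) -
        FA (Ico u (u + ℓ) \ D) (θ + (s : ℝ) / b) := by
      unfold FA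
      rw [eq_sub_iff_add_eq, add_comm, sum_sdiff hD]
    rw [e1]
    refine (norm_sub_le _ _).trans (add_le_add ?_ (FA_le _ _))
    have := geo_bound u (u + ℓ) (by omega) (M := (ℓ : ℝ)) (by push_cast; linarith)
      (θ + (s : ℝ) / b)
    rw [mul_one_div]
    exact this
  refine (sum_le_sum h1).trans ?_
  rw [sum_add_distrib, sum_const, card_range, nsmul_eq_mul]
  apply add_le_add_left
  have h2 := vino_block (q := b) hb (a := 1) isCoprime_one_left (α := 1 / (b : ℝ))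
    (by push_cast; rw [sub_self, abs_zero]; positivity) (M := (ℓ : ℝ)) (Nat.cast_nonneg _) θ
  refine h2.trans ?_
  have h3 : (ℓ : ℝ) ≤ b := by exact_mod_cast hℓ
  nlinarith

end Pool.Agent.Y851.DG
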