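import Pool.Agent.W301.SS.Core

/-! Primes to the left of the elements of one set: the Fourier identity and bounds at the points. -/

set_option autoImplicit false

namespace Pool.Agent.Y851.DG
open Finset
open Pool.Agent.H807R2.Dav Pool.Agent.W301.SS

/-- sum of `log p` over the primes in `[x - H, x)`, over `x ∈ A` -/
noncomputable def TL (A : Finset ℕ) (H : ℕ) : ℝ := ∑ x ∈ A, ∑ h ∈ Ioc 0 H, om (x - h)

lemma inversionL {N M x h : ℕ} (hxN : x ≤ N) (hh : 0 < h) (hM : N + h < M) :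
    ∑ r ∈ range M, SP N (-((r : ℝ) / M)) * ee (((x : ℝ) - h) * ((r : ℝ) / M)) =
      M * ((om (x - h) : ℝ) : ℂ) := by
  have hM1 : 1 ≤ M := by omega
  have e1 : ∀ r ∈ range M, SP N (-((r : ℝ) / M)) * ee (((x : ℝ) - h) * ((r : ℝ) / M)) =
      ∑ n ∈ Icc 1 N, ((om n : ℝ) : ℂ) * ee (((x : ℤ) - (h : ℤ) - (n : ℤ) : ℤ) * ((r : ℝ) / M)) := by
    intro r _
    unfold SP
    rw [sum_mul]
    apply sum_congr rfl
    intro n _
    rw [mul_assoc, ← ee_add]
    congr 2
    push_cast; ring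
  rw [sum_congr rfl e1, sum_comm]
  have e2 : ∀ n ∈ Icc 1 N, ∑ r ∈ range M, ((om n : ℝ) : ℂ) *
      ee (((x : ℤ) - (h : ℤ) - (n : ℤ) : ℤ) * ((r : ℝ) / M)) =
      if n = x - h then M * ((om n : ℝ) : ℂ) else 0 := by
    intro n hn
    rw [mem_Icc] at hn
    rw [← mul_sum, orth hM1]
    by_cases h1 : n = x - h
    · rw [if_pos h1, if_pos]
      · ring
      · have : (x : ℤ) - h - n = 0 := by omega
        rw [this]; exact dvd_zero _
    · rw [if_neg h1, if_neg, mul_zero]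
      intro h2
      have h3 := Int.eq_zero_of_abs_lt_dvd h2 (by rw [abs_lt]; constructor <;> omega)
      apply h1; omega
  rw [sum_congr rfl e2, sum_ite_eq']
  by_cases h1 : x - h ∈ Icc 1 N
  · rw [if_pos h1]
  · rw [if_neg h1]
    have : x - h = 0 := by
      rw [mem_Icc] at h1; omega
    rw [this]
    simp [om]

lemma TL_fourier {N M : ℕ} (A : Finset ℕ) (H : ℕ) (hA : ∀ a ∈ A, a ≤ N) (hM : N + H < M) :
    (M : ℂ) * ((TL A H : ℝ) : ℂ) = ∑ r ∈ range M, SP N (-((r : ℝ) / M)) *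
      (FA A ((r : ℝ) / M) * FK H (-((r : ℝ) / M))) := by
  have e1 : ∀ r ∈ range M, SP N (-((r : ℝ) / M)) *
      (FA A ((r : ℝ) / M) * FK H (-((r : ℝ) / M))) =
      ∑ a ∈ A, ∑ h ∈ Ioc 0 H, SP N (-((r : ℝ) / M)) *
        ee (((a : ℝ) - h) * ((r : ℝ) / M)) := by
    intro r _
    unfold FA FK
    rw [sum_mul_sum, mul_sum]
    apply sum_congr rfl
    intro a _
    rw [mul_sum]
    apply sum_congr rfl
    intro h _
    rw [← ee_add]
    congr 2
    ring
  rw [sum_congr rfl e1, sum_comm]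
  unfold TL
  push_cast
  rw [mul_sum]
  apply sum_congr rfl
  intro a ha
  rw [sum_comm, mul_sum]
  apply sum_congr rfl
  intro h hh
  rw [mem_Ioc] at hh
  rw [inversionL (hA a ha) hh.1 (by omega)]

lemma FK_conj (H H1 : ℕ) (x : ℝ) : ‖FK H (-x) / H - FK H1 (-x) / H1‖ = ‖FK H x / H - FK H1 x / H1‖ := by
  have e : ∀ K : ℕ, FK K (-x) / K = (starRingEnd ℂ) (FK K x / K) := by
    intro K
    unfold FK
    rw [map_div₀, map_sum]
    congr 1
    · apply sum_congr rfl
      intro a _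
      rw [star_ee]
      congr 1; ring
    · simp
  rw [e, e, ← map_sub, RCLike.norm_conj]

lemma SP_neg (N : ℕ) (x : ℝ) : ‖SP N (-x)‖ = ‖SP N x‖ := by
  have e : SP N (-x) = (starRingEnd ℂ) (SP N x) := by
    unfold SP
    rw [map_sum]
    apply sum_congr rfl
    intro a _
    rw [map_mul, star_ee, Complex.conj_ofReal]
    congr 2; ring
  rw [e, RCLike.norm_conj]

lemma SP_add_int (N : ℕ) (x : ℝ) (n : ℤ) : SP N (x + n) = SP N x := by
  unfold SP
  apply sum_congr rfl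
  intro a _
  have : (a : ℝ) * (x + n) = a * x + ((a * n : ℤ) : ℝ) := by push_cast; ring
  rw [this, ee_add_int]

lemma FK_add_int (H : ℕ) (x : ℝ) (n : ℤ) : FK H (x + n) = FK H x := by
  unfold FK
  apply sum_congr rfl
  intro a _
  have : (a : ℝ) * (x + n) = a * x + ((a * n : ℤ) : ℝ) := by push_cast; ring
  rw [this, ee_add_int]

/-- the weight at a frequency -/
noncomputable def wt (N H H1 : ℕ) (β : ℝ) : ℝ := ‖SP N β‖ * ‖FK H β / H - FK H1 β / H1‖

lemma wt_nonneg (N H H1 : ℕ) (β : ℝ) : 0 ≤ wt N H H1 β := by unfold wt; positivity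

lemma TL_diff {N M : ℕ} (A : Finset ℕ) (H H1 : ℕ) (hA : ∀ a ∈ A, a ≤ N) (hHH : H ≤ H1)
    (hM : N + H1 < M) :
    (M : ℝ) * |TL A H / H - TL A H1 / H1| ≤ ∑ r ∈ range M, ‖FA A ((r : ℝ) / M)‖ *
      wt N H H1 ((r : ℝ) / M) := by
  have h1 := TL_fourier A H hA (M := M) (by omega)
  have h2 := TL_fourier A H1 hA hM
  have h3 : (M : ℂ) * (((TL A H / H - TL A H1 / H1 : ℝ)) : ℂ) =
      ∑ r ∈ range M, SP N (-((r : ℝ) / M)) * (FA A ((r : ℝ) / M) *
        (FK H (-((r : ℝ) / M)) / H - FK H1 (-((r : ℝ) / M)) / H1)) := by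
    push_cast
    rw [mul_sub, ← mul_div_assoc, ← mul_div_assoc, h1, h2, sum_div, sum_div, ← sum_sub_distrib]
    apply sum_congr rfl
    intro r _
    ring
  have h5 : (M : ℝ) * |TL A H / H - TL A H1 / H1| =
      ‖(M : ℂ) * (((TL A H / H - TL A H1 / H1 : ℝ)) : ℂ)‖ := by
    rw [norm_mul, Complex.norm_natCast, Complex.norm_real, Real.norm_eq_abs]
  rw [h5, h3]
  refine (norm_sum_le _ _).trans (sum_le_sum fun r hrm => le_of_eq ?_)
  rw [norm_mul, norm_mul, FK_conj, SP_neg]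
  unfold wt
  ring

/-- folding the frequencies -/
lemma fold {M : ℕ} (hM : 1 ≤ M) (w : ℝ → ℝ) (h0 : ∀ x, 0 ≤ w x) (h1 : ∀ x, w (-x) = w x)
    (h2 : ∀ (x : ℝ) (n : ℤ), w (x + n) = w x) (hw : w 0 = 0) :
    ∑ r ∈ range M, w ((r : ℝ) / M) ≤ 2 * ∑ m ∈ Ioc 0 (M / 2), w ((m : ℝ) / M) := by
  have hM0 : (M : ℝ) ≠ 0 := by positivity
  have e1 : range M = insert 0 (Ioc 0 (M / 2) ∪ Ioc (M / 2) (M - 1)) := by
    ext i
    simp only [mem_range, mem_insert, mem_union, mem_Ioc]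
    omega
  have hd : Disjoint (Ioc 0 (M / 2)) (Ioc (M / 2) (M - 1)) := by
    rw [disjoint_left]; intro i hi hi'
    rw [mem_Ioc] at hi hi'; omega
  rw [e1, sum_insert (by simp), sum_union hd]
  have e2 : ∑ r ∈ Ioc (M / 2) (M - 1), w ((r : ℝ) / M) ≤ ∑ m ∈ Ioc 0 (M / 2), w ((m : ℝ) / M) := by
    have e3 : ∀ r ∈ Ioc (M / 2) (M - 1), w ((r : ℝ) / M) = w (((M - r : ℕ) : ℝ) / M) := by
      intro r hr
      rw [mem_Ioc] at hr
      have : (((M - r : ℕ) : ℝ) / M) = -((r : ℝ) / M) + (1 : ℤ) := by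
        rw [Nat.cast_sub (by omega)]
        field_simp
        push_cast; ring
      rw [this, h2, h1]
    rw [sum_congr rfl e3]
    have e4 : ∑ r ∈ Ioc (M / 2) (M - 1), w (((M - r : ℕ) : ℝ) / M) =
        ∑ m ∈ (Ioc (M / 2) (M - 1)).image (fun r => M - r), w ((m : ℝ) / M) := by
      rw [sum_image]
      intro a ha b hb hab
      rw [coe_Ioc, Set.mem_Ioc] at ha hb
      simp only at hab
      omega
    rw [e4]
    apply sum_le_sum_of_subset_of_nonneg
    · intro m hm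
      rw [mem_image] at hm
      obtain ⟨r, hr, rfl⟩ := hm
      rw [mem_Ioc] at hr ⊢
      omega
    · intro _ _ _; exact h0 _
  have e5 : w (((0 : ℕ) : ℝ) / M) = 0 := by simpa using hw
  rw [e5]
  linarith

lemma TL_fold {N M : ℕ} (A : Finset ℕ) (H H1 : ℕ) (hA : ∀ a ∈ A, a ≤ N) (hH : 1 ≤ H) (hHH : H ≤ H1)
    (hM : N + H1 < M) :
    (M : ℝ) * |TL A H / H - TL A H1 / H1| ≤ 2 * ∑ m ∈ Ioc 0 (M / 2), ‖FA A ((m : ℝ) / M)‖ *
      wt N H H1 ((m : ℝ) / M) := by
  refine (TL_diff A H H1 hA hHH hM).trans ?_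
  apply fold (by omega) (fun β => ‖FA A β‖ * wt N H H1 β)
  · intro x; have := wt_nonneg N H H1 x; positivity
  · intro x
    have e : ‖FA A (-x)‖ = ‖FA A x‖ := by
      have : FA A (-x) = (starRingEnd ℂ) (FA A x) := by
        unfold FA
        rw [map_sum]
        apply sum_congr rfl
        intro a _
        rw [star_ee]
        congr 1; ring
      rw [this, RCLike.norm_conj]
    unfold wt
    rw [e, SP_neg, FK_conj]
  · intro x n
    have e : FA A (x + n) = FA A x := by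
      unfold FA
      apply sum_congr rfl
      intro a _
      have : (a : ℝ) * (x + n) = a * x + ((a * n : ℤ) : ℝ) := by push_cast; ring
      rw [this, ee_add_int]
    unfold wt
    rw [e, SP_add_int, FK_add_int, FK_add_int]
  · have hH0 : (H : ℂ) ≠ 0 := by
      have : 0 < H := hH
      exact_mod_cast this.ne'
    have hH10 : (H1 : ℂ) ≠ 0 := by
      have : 0 < H1 := by omega
      exact_mod_cast this.ne'
    have : FK H 0 / H - FK H1 0 / H1 = 0 := by
      unfold FK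
      simp [ee_zero, hH0, hH10]
    unfold wt
    rw [this]; simp

/-- near `0` -/
lemma wt_near (N H H1 : ℕ) (hH : 1 ≤ H) (hHH : H ≤ H1) {g : ℝ} (hg : 0 ≤ g) :
    wt N H H1 g ≤ 26 * N * (H1 * g) := by
  have a1 := FK_near H hH g
  have a2 := FK_near H1 (by omega) g
  rw [abs_of_nonneg hg] at a1 a2
  have hHHr : (H : ℝ) ≤ H1 := by exact_mod_cast hHH
  have hpi := Real.pi_lt_d2
  have hpi0 := Real.pi_pos
  have e : FK H g / H - FK H1 g / H1 = (FK H g / H - 1) - (FK H1 g / H1 - 1) := by ring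
  have h1 : ‖FK H g / H - FK H1 g / H1‖ ≤ 4 * Real.pi * (H1 * g) := by
    rw [e]
    refine (norm_sub_le _ _).trans ?_
    have a3 : (H : ℝ) * g ≤ H1 * g := by gcongr
    have a5 : 2 * Real.pi * (H * g) ≤ 2 * Real.pi * (H1 * g) := by gcongr
    linarith
  unfold wt
  have h0 : (0 : ℝ) ≤ N := Nat.cast_nonneg N
  calc ‖SP N g‖ * ‖FK H g / H - FK H1 g / H1‖ ≤ (2 * N) * (4 * Real.pi * (H1 * g)) := by
        apply mul_le_mul (SP_le N _) h1 (norm_nonneg _) (by positivity)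
    _ = 8 * Real.pi * (N * (H1 * g)) := by ring
    _ ≤ 26 * (N * (H1 * g)) := by
        apply mul_le_mul_of_nonneg_right _ (by positivity)
        linarith
    _ = _ := by ring

/-- away from `0` -/
lemma wt_far {C : ℝ} (hC : VC C) {N M m : ℕ} (hN : 1 ≤ N) (hm : 1 ≤ m) (hmM : 2 * m ≤ M)
    (H H1 : ℕ) (hH : 1 ≤ H) (hHH : H ≤ H1) (g : ℝ) (hg : g = (m : ℝ) / M) :
    wt N H H1 g ≤ 6 * C * (1 + Real.log N) ^ 7 *
      (N * √(2 * g) + (N : ℝ) ^ (4 / 5 : ℝ) + √(N / g)) / (1 + 4 * H * g) := by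
  obtain ⟨hC0, hC⟩ := hC
  have hM : 1 ≤ M := by omega
  have hM0 : (0 : ℝ) < M := by exact_mod_cast hM
  have hm0 : (0 : ℝ) < m := by exact_mod_cast hm
  have hN1 : (1 : ℝ) ≤ N := by exact_mod_cast hN
  have hN0 : (0 : ℝ) < N := by linarith
  have hH0 : (0 : ℝ) < H := by exact_mod_cast hH
  have hH1 : 1 ≤ H1 := by omega
  have hH10 : (0 : ℝ) < H1 := by exact_mod_cast hH1
  have hHHr : (H : ℝ) ≤ H1 := by exact_mod_cast hHH
  have hlogN : 0 ≤ Real.log N := Real.log_nonneg hN1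
  set L : ℝ := 1 + Real.log N with hL
  have hL1 : 1 ≤ L := by linarith
  set q : ℕ := M / m with hq
  have hq2 : 2 ≤ q := (Nat.le_div_iff_mul_le (by omega)).2 hmM
  have hq1 : 1 ≤ q := by omega
  have hqr : (1 : ℝ) ≤ q := by exact_mod_cast hq1
  have hq0 : (0 : ℝ) < q := by linarith
  have hqm : (q : ℝ) * m ≤ M := by exact_mod_cast Nat.div_mul_le_self M m
  have hqm' : (M : ℝ) < (q + 1) * m := by
    have : M < m * (q + 1) := by
      have := Nat.lt_mul_div_succ M (show 0 < m by omega)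
      simpa [hq] using this
    have h2 : (M : ℝ) < ((m * (q + 1) : ℕ) : ℝ) := by exact_mod_cast this
    push_cast at h2
    linarith
  have hg0 : 0 < g := by rw [hg]; positivity
  have hgq : g ≤ 1 / q := by
    rw [hg, div_le_div_iff₀ hM0 hq0]; linarith
  have hgq' : 1 / (2 * (q : ℝ)) ≤ g := by
    rw [hg, div_le_div_iff₀ (by positivity) hM0]
    nlinarith
  have hg2 : g ≤ 1 / 2 := by
    rw [hg, div_le_div_iff₀ hM0 (by norm_num)]
    have : ((2 * m : ℕ) : ℝ) ≤ M := by exact_mod_cast hmM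
    push_cast at this; linarith
  have hdiff : |g - 1 / q| ≤ 1 / (q : ℝ) ^ 2 := by
    rw [abs_sub_comm, abs_of_nonneg (by linarith)]
    have e : 1 / (q : ℝ) - g = (M - q * m) / (q * M) := by rw [hg]; field_simp
    rw [e]
    calc (M - (q : ℝ) * m) / (q * M) ≤ m / (q * M) := by
          apply div_le_div_of_nonneg_right _ (by positivity)
          linarith
      _ = g / q := by rw [hg]; field_simp
      _ ≤ (1 / q) / q := div_le_div_of_nonneg_right hgq hq0.le
      _ = _ := by field_simp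
  have hdd : 4 * g ≤ dd g := by
    have h1 := dd_ge hg0.le (by linarith : g ≤ 1)
    have h2 : min g (1 - g) = g := min_eq_left (by linarith)
    rw [h2] at h1
    exact h1
  have hvin : ‖SP N g‖ ≤ C * L ^ 7 * VB N q := by
    apply hC N q hN hq1 1 isCoprime_one_left
    push_cast
    exact hdiff
  have hVB : VB N q ≤ N * √(2 * g) + (N : ℝ) ^ (4 / 5 : ℝ) + √(N / g) := by
    unfold VB
    have b1 : N / √(q : ℝ) ≤ N * √(2 * g) := by
      rw [div_le_iff₀ (Real.sqrt_pos.2 hq0), mul_assoc, ← Real.sqrt_mul (by positivity)]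
      have : 1 ≤ √(2 * g * q) := by
        rw [Real.one_le_sqrt]
        rw [div_le_iff₀ (by positivity)] at hgq'
        linarith
      nlinarith
    have b2 : √((N : ℝ) * q) ≤ √(N / g) := by
      apply Real.sqrt_le_sqrt
      rw [div_eq_mul_inv]
      apply mul_le_mul_of_nonneg_left _ hN0.le
      rw [← one_div, le_div_iff₀ hg0]
      rw [le_div_iff₀ hq0] at hgq
      linarith
    linarith
  have hker : ‖FK H g / H - FK H1 g / H1‖ ≤ 6 / (1 + 4 * H * g) := by
    have a1 := FK_far H hH g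
    have a2 := FK_far H1 hH1 g
    have hd0 := dd_nonneg g
    have a3 : 3 / (1 + (H1 : ℝ) * dd g) ≤ 3 / (1 + 4 * H * g) := by
      apply div_le_div_of_nonneg_left (by norm_num) (by positivity)
      nlinarith
    have a4 : 3 / (1 + (H : ℝ) * dd g) ≤ 3 / (1 + 4 * H * g) := by
      apply div_le_div_of_nonneg_left (by norm_num) (by positivity)
      nlinarith
    have e : 6 / (1 + 4 * H * g) = 3 / (1 + 4 * H * g) + 3 / (1 + 4 * H * g) := by ring
    rw [e]
    exact (norm_sub_le _ _).trans (add_le_add (a1.trans a4) (a2.trans a3))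
  unfold wt
  calc ‖SP N g‖ * ‖FK H g / H - FK H1 g / H1‖ ≤
        (C * L ^ 7 * (N * √(2 * g) + (N : ℝ) ^ (4 / 5 : ℝ) + √(N / g))) * (6 / (1 + 4 * H * g)) := by
          apply mul_le_mul (hvin.trans _) hker (norm_nonneg _) (by positivity)
          gcongr
    _ = _ := by ring

end Pool.Agent.Y851.DG
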