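import Pool.Agent.Y851.DG.Dig
import Pool.Agent.Y851.DG.Pt

/-! The comparison of short and long intervals over a set with restricted digits. -/

set_option autoImplicit false

namespace Pool.Agent.Y851.DG
open Finset
open Pool.Agent.H807R2.Dav Pool.Agent.W301.SS

lemma blocks (b : ℕ) (hb : 1 ≤ b) (f : ℕ → ℝ) (i0 k : ℕ) (hi : i0 ≤ k) :
    ∑ m ∈ Ico 1 (b ^ k), f m = ∑ m ∈ Ico 1 (b ^ i0), f m +
      ∑ i ∈ Ico i0 k, ∑ m ∈ Ico (b ^ i) (b ^ (i + 1)), f m := by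
  induction k, hi using Nat.le_induction with
  | base => simp
  | succ k hk ih =>
    rw [sum_Ico_succ_top hk, ← add_assoc, ← ih, sum_Ico_consecutive]
    · exact Nat.one_le_iff_ne_zero.2 (Nat.pow_pos hb).ne'
    · exact Nat.pow_le_pow_right hb (Nat.le_succ k)

/-- the main estimate -/
lemma est {C : ℝ} (hC : VC C) {b : ℕ} (hb : 2 ≤ b) {D : Finset ℕ} (hD : ∀ d ∈ D, d < b)
    {κ : ℝ} (hκ0 : 0 ≤ κ) (hκ : κ ≤ 1 / 5)
    (hB : ∀ θ : ℝ, ∑ s ∈ range b, ‖FA D (θ + (s : ℝ) / b)‖ ≤ D.card * (b : ℝ) ^ κ)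
    {k i0 : ℕ} (hi0 : i0 ≤ k + 1) (H H1 : ℕ) (hH : 1 ≤ H) (hHH : H ≤ H1) (hH1 : b ^ k + H1 < b ^ (k + 1)) :
    |TL (DS b D k) H / H - TL (DS b D k) H1 / H1| ≤ (D.card : ℝ) ^ k *
      (52 * (H1 / ((b : ℝ) ^ k)) * ((b : ℝ) ^ i0) ^ 2 +
        12 * C * (1 + Real.log ((b ^ k : ℕ) : ℝ)) ^ 7 * (k + 1) *
          (((b : ℝ) ^ k) ^ κ * √(b / H) + ((b : ℝ) ^ k) ^ (κ - 1 / 5) +
            √b * ((b : ℝ) ^ i0) ^ (κ - 1 / 2))) := by
  have hC0 := hC.1
  have hb1 : 1 ≤ b := by omega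
  have hb0 : (0 : ℝ) < b := by exact_mod_cast hb1
  have hbr1 : (1 : ℝ) ≤ b := by exact_mod_cast hb1
  set N : ℕ := b ^ k with hN
  set M : ℕ := b ^ (k + 1) with hM
  have hN1 : 1 ≤ N := Nat.pow_pos hb1
  have hNr : ((N : ℕ) : ℝ) = (b : ℝ) ^ k := by rw [hN]; push_cast; rfl
  have hMr : ((M : ℕ) : ℝ) = b * (b : ℝ) ^ k := by rw [hM]; push_cast; ring
  have hN0 : (0 : ℝ) < N := by exact_mod_cast hN1
  have hN1r : (1 : ℝ) ≤ N := by exact_mod_cast hN1
  have hM1 : 1 ≤ M := Nat.pow_pos hb1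
  have hM0 : (0 : ℝ) < M := by exact_mod_cast hM1
  have hMN : (M : ℝ) = b * N := by rw [hMr, hNr]
  have hNM : (N : ℝ) ≤ M := by rw [hMN]; nlinarith
  have hH0 : (0 : ℝ) < H := by exact_mod_cast hH
  have hH10 : (0 : ℝ) ≤ H1 := Nat.cast_nonneg _
  set A := DS b D k with hA
  have hAlt : ∀ a ∈ A, a ≤ N := fun a ha => (DS_lt hD k a ha).le
  set L : ℝ := 1 + Real.log N with hL
  have hlogN : 0 ≤ Real.log N := Real.log_nonneg hN1r
  have hL1 : 1 ≤ L := by linarith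
  set m0 : ℝ := (D.card : ℝ) ^ k with hm0
  have hm00 : 0 ≤ m0 := by positivity
  have hfold := TL_fold A H H1 hAlt hH hHH hH1
  -- the function
  set f : ℕ → ℝ := fun m => if 2 * m ≤ M then ‖FA A ((m : ℝ) / M)‖ * wt N H H1 ((m : ℝ) / M) else 0
    with hf
  have hf0 : ∀ m, 0 ≤ f m := by
    intro m
    rw [hf]
    simp only
    split_ifs
    · have := wt_nonneg N H H1 ((m : ℝ) / M); positivity
    · exact le_rfl
  have h1 : ∑ m ∈ Ioc 0 (M / 2), ‖FA A ((m : ℝ) / M)‖ * wt N H H1 ((m : ℝ) / M) ≤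
      ∑ m ∈ Ico 1 M, f m := by
    have e : ∑ m ∈ Ioc 0 (M / 2), ‖FA A ((m : ℝ) / M)‖ * wt N H H1 ((m : ℝ) / M) =
        ∑ m ∈ Ioc 0 (M / 2), f m := by
      apply sum_congr rfl
      intro m hm
      rw [mem_Ioc] at hm
      rw [hf]
      simp only
      rw [if_pos (by omega)]
    rw [e]
    apply sum_le_sum_of_subset_of_nonneg
    · intro m hm
      rw [mem_Ioc] at hm
      rw [mem_Ico]
      omega
    · intro m _ _; exact hf0 m
  rw [hM, blocks b hb1 f i0 (k + 1) hi0, ← hM] at h1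
  -- near
  have hnear : ∑ m ∈ Ico 1 (b ^ i0), f m ≤ m0 * (26 * N * H1 * ((b : ℝ) ^ i0) ^ 2 / M) := by
    have h2 : ∀ m ∈ Ico 1 (b ^ i0), f m ≤ m0 * (26 * N * (H1 * (((b : ℝ) ^ i0) / M))) := by
      intro m hm
      rw [mem_Ico] at hm
      rw [hf]
      simp only
      have hpos : 0 ≤ m0 * (26 * N * (H1 * (((b : ℝ) ^ i0) / M))) := by positivity
      split_ifs with hmM
      · have h3 := wt_near N H H1 hH hHH (g := (m : ℝ) / M) (by positivity)
        have h4 : ‖FA A ((m : ℝ) / M)‖ ≤ m0 := by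
          have := FA_le A ((m : ℝ) / M)
          rw [hA, DS_card hD] at this
          rw [hm0]
          exact_mod_cast this
        have h5 : (m : ℝ) ≤ (b : ℝ) ^ i0 := by
          have : m ≤ b ^ i0 := hm.2.le
          exact_mod_cast this
        calc ‖FA A ((m : ℝ) / M)‖ * wt N H H1 ((m : ℝ) / M) ≤ m0 * (26 * N * (H1 * ((m : ℝ) / M))) := by
              apply mul_le_mul h4 h3 (wt_nonneg _ _ _ _) hm00
          _ ≤ _ := by gcongr
      · exact hpos
    refine (sum_le_sum h2).trans ?_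
    rw [sum_const, nsmul_eq_mul, Nat.card_Ico]
    have h6 : ((b ^ i0 - 1 : ℕ) : ℝ) ≤ (b : ℝ) ^ i0 := by
      have : b ^ i0 - 1 ≤ b ^ i0 := Nat.sub_le _ _
      exact_mod_cast this
    calc ((b ^ i0 - 1 : ℕ) : ℝ) * (m0 * (26 * N * (H1 * (((b : ℝ) ^ i0) / M)))) ≤
          (b : ℝ) ^ i0 * (m0 * (26 * N * (H1 * (((b : ℝ) ^ i0) / M)))) := by gcongr
      _ = _ := by ring
  -- far
  set Y0 : ℝ := (b : ℝ) ^ i0 with hY0
  have hY01 : 1 ≤ Y0 := one_le_pow₀ hbr1
  set E : ℝ := ((b : ℝ) ^ k) ^ κ * √(b / H) + ((b : ℝ) ^ k) ^ (κ - 1 / 5) +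
            √b * Y0 ^ (κ - 1 / 2) with hE
  have hfar : ∀ i ∈ Ico i0 (k + 1), ∑ m ∈ Ico (b ^ i) (b ^ (i + 1)), f m ≤
      m0 * (6 * C * L ^ 7 * M * E) := by
    intro i hi
    rw [mem_Ico] at hi
    have hik : i ≤ k := by omega
    set y : ℝ := (b : ℝ) ^ i with hy
    have hy1 : 1 ≤ y := one_le_pow₀ hbr1
    have hy0 : 0 < y := by linarith
    have hyN : y ≤ N := by
      rw [hNr, hy]; exact pow_le_pow_right₀ hbr1 hik
    have hyY : Y0 ≤ y := pow_le_pow_right₀ hbr1 hi.1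
    set V : ℝ := 6 * C * L ^ 7 * (√(2 * N * y) + (N : ℝ) ^ (4 / 5 : ℝ) + N * √(b / y)) /
      (1 + 4 * H * y / M) with hV
    have hV0 : 0 ≤ V := by rw [hV]; positivity
    have h2 : ∀ m ∈ Ico (b ^ i) (b ^ (i + 1)), f m ≤ ‖FA A ((m : ℝ) / M)‖ * V := by
      intro m hm
      rw [mem_Ico] at hm
      have hm1 : 1 ≤ m := le_trans (Nat.pow_pos hb1) hm.1
      have hmy : y ≤ m := by
        rw [hy]; exact_mod_cast hm.1
      have hmy' : (m : ℝ) ≤ b * y := by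
        have : (m : ℝ) ≤ ((b ^ (i + 1) : ℕ) : ℝ) := by exact_mod_cast hm.2.le
        rw [hy]
        push_cast at this
        rw [pow_succ] at this
        linarith
      rw [hf]
      simp only
      split_ifs with hmM
      · apply mul_le_mul_of_nonneg_left _ (norm_nonneg _)
        refine (wt_far hC hN1 hm1 hmM H H1 hH hHH _ rfl).trans ?_
        rw [hV, ← hL]
        have hm0r : (0 : ℝ) < m := by linarith
        have c1 : (N : ℝ) * √(2 * ((m : ℝ) / M)) ≤ √(2 * N * y) := by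
          have e1 : (N : ℝ) = √((N : ℝ) ^ 2) := (Real.sqrt_sq hN0.le).symm
          rw [e1, ← Real.sqrt_mul (by positivity)]
          rw [← e1]
          apply Real.sqrt_le_sqrt
          have : (m : ℝ) / M ≤ y / N := by
            rw [div_le_div_iff₀ hM0 hN0, hMN]
            nlinarith
          calc (N : ℝ) ^ 2 * (2 * (m / M)) ≤ (N : ℝ) ^ 2 * (2 * (y / N)) := by gcongr
            _ = _ := by field_simp
        have c2 : √((N : ℝ) / (m / M)) ≤ N * √(b / y) := by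
          have e1 : (N : ℝ) = √((N : ℝ) ^ 2) := (Real.sqrt_sq hN0.le).symm
          conv_rhs => rw [e1]
          rw [← Real.sqrt_mul (by positivity)]
          apply Real.sqrt_le_sqrt
          calc (N : ℝ) / (m / M) = N * M / m := by field_simp
            _ ≤ N * M / y := by gcongr
            _ = _ := by rw [hMN]; ring
        have c3 : 1 + 4 * (H : ℝ) * y / M ≤ 1 + 4 * H * (m / M) := by
          have : 4 * (H : ℝ) * y / M ≤ 4 * H * (m / M) := by
            rw [mul_div_assoc]; gcongr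
          linarith
        gcongr
      · positivity
    have h3 : ∑ m ∈ Ico (b ^ i) (b ^ (i + 1)), ‖FA A ((m : ℝ) / M)‖ ≤ b * m0 * y ^ κ := by
      have h4 := L1 hb1 hD (D.card * (b : ℝ) ^ κ) (by positivity) hB hik
      have h5 : ∑ m ∈ Ico (b ^ i) (b ^ (i + 1)), ‖FA A ((m : ℝ) / M)‖ ≤
          ∑ r ∈ range (b ^ (i + 1)), ‖FA A ((r : ℝ) / M)‖ := by
        apply sum_le_sum_of_subset_of_nonneg
        · intro m hm
          rw [mem_Ico] at hm
          rw [mem_range]; exact hm.2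
        · intro _ _ _; exact norm_nonneg _
      refine h5.trans (h4.trans (le_of_eq ?_))
      rw [mul_pow, hm0, hy]
      have e1 : (D.card : ℝ) ^ k = (D.card : ℝ) ^ i * (D.card : ℝ) ^ (k - i) := by
        rw [← pow_add]; congr 1; omega
      have e2 : ((b : ℝ) ^ κ) ^ i = ((b : ℝ) ^ i) ^ κ := by
        rw [← Real.rpow_natCast, ← Real.rpow_mul hb0.le, ← Real.rpow_natCast (b : ℝ) i,
          ← Real.rpow_mul hb0.le, mul_comm]
      rw [e1, e2]; ring
    have hnum : y ^ κ * ((√(2 * N * y) + (N : ℝ) ^ (4 / 5 : ℝ) + N * √(b / y)) /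
        (1 + 4 * H * y / M)) ≤ N * E := by
      have hden : 1 ≤ 1 + 4 * (H : ℝ) * y / M := by
        have : 0 ≤ 4 * (H : ℝ) * y / M := by positivity
        linarith
      have hden0 : 0 < 1 + 4 * (H : ℝ) * y / M := by linarith
      have hyκ : y ^ κ ≤ ((b : ℝ) ^ k) ^ κ := by
        rw [← hNr]; exact Real.rpow_le_rpow hy0.le hyN hκ0
      have hyκ0 : 0 ≤ y ^ κ := by positivity
      -- first term
      have t1 : y ^ κ * (√(2 * N * y) / (1 + 4 * H * y / M)) ≤ N * (((b : ℝ) ^ k) ^ κ * √(b / H)) := by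
        have a1 : √(2 * N * y) / (1 + 4 * H * y / M) ≤ N * √(b / H) := by
          rw [div_le_iff₀ hden0]
          have a2 : √(4 * (H : ℝ) * y / M) ≤ 1 + 4 * (H : ℝ) * y / M := by
            have a3 : 0 ≤ 4 * (H : ℝ) * y / M := by positivity
            nlinarith [Real.sq_sqrt a3, sq_nonneg (√(4 * (H : ℝ) * y / M) - 1),
              Real.sqrt_nonneg (4 * (H : ℝ) * y / M)]
          have a4 : √(2 * N * y) ≤ N * √(b / H) * √(4 * (H : ℝ) * y / M) := by
            have e1 : (N : ℝ) = √((N : ℝ) ^ 2) := (Real.sqrt_sq hN0.le).symm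
            conv_rhs => rw [e1]
            rw [← Real.sqrt_mul (by positivity), ← Real.sqrt_mul (by positivity)]
            apply Real.sqrt_le_sqrt
            have : (N : ℝ) ^ 2 * (b / H) * (4 * H * y / M) = 4 * N * y := by
              rw [hMN]; field_simp
            rw [this]
            nlinarith
          calc √(2 * N * y) ≤ N * √(b / H) * √(4 * (H : ℝ) * y / M) := a4
            _ ≤ _ := by gcongr
        calc y ^ κ * (√(2 * N * y) / (1 + 4 * H * y / M)) ≤ ((b : ℝ) ^ k) ^ κ * (N * √(b / H)) := by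
              gcongr
          _ = _ := by ring
      have t2 : y ^ κ * ((N : ℝ) ^ (4 / 5 : ℝ) / (1 + 4 * H * y / M)) ≤
          N * ((b : ℝ) ^ k) ^ (κ - 1 / 5) := by
        have a1 : (N : ℝ) ^ (4 / 5 : ℝ) / (1 + 4 * H * y / M) ≤ (N : ℝ) ^ (4 / 5 : ℝ) :=
          div_le_self (by positivity) hden
        have e1 : (N : ℝ) * ((b : ℝ) ^ k) ^ (κ - 1 / 5) = ((b : ℝ) ^ k) ^ κ * (N : ℝ) ^ (4 / 5 : ℝ) := by
          rw [← hNr, ← Real.rpow_add hN0]
          nth_rw 1 [← Real.rpow_one (N : ℝ)]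
          rw [← Real.rpow_add hN0]
          congr 1; ring
        rw [e1]
        gcongr
      have t3 : y ^ κ * (N * √(b / y) / (1 + 4 * H * y / M)) ≤ N * (√b * Y0 ^ (κ - 1 / 2)) := by
        have a1 : N * √(b / y) / (1 + 4 * H * y / M) ≤ N * √(b / y) :=
          div_le_self (by positivity) hden
        have e1 : y ^ κ * (N * √(b / y)) = N * (√b * y ^ (κ - 1 / 2)) := by
          rw [Real.sqrt_div hb0.le, Real.rpow_sub hy0, ← Real.sqrt_eq_rpow]
          field_simp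
        have a2 : y ^ (κ - 1 / 2) ≤ Y0 ^ (κ - 1 / 2) :=
          Real.rpow_le_rpow_of_nonpos (by linarith) hyY (by linarith)
        calc y ^ κ * (N * √(b / y) / (1 + 4 * H * y / M)) ≤ y ^ κ * (N * √(b / y)) := by gcongr
          _ = N * (√b * y ^ (κ - 1 / 2)) := e1
          _ ≤ _ := by gcongr
      calc y ^ κ * ((√(2 * N * y) + (N : ℝ) ^ (4 / 5 : ℝ) + N * √(b / y)) / (1 + 4 * H * y / M)) =
            y ^ κ * (√(2 * N * y) / (1 + 4 * H * y / M)) +
            y ^ κ * ((N : ℝ) ^ (4 / 5 : ℝ) / (1 + 4 * H * y / M)) +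
            y ^ κ * (N * √(b / y) / (1 + 4 * H * y / M)) := by ring
        _ ≤ _ := by rw [hE]; linarith
    calc ∑ m ∈ Ico (b ^ i) (b ^ (i + 1)), f m ≤
          ∑ m ∈ Ico (b ^ i) (b ^ (i + 1)), ‖FA A ((m : ℝ) / M)‖ * V := sum_le_sum h2
      _ = (∑ m ∈ Ico (b ^ i) (b ^ (i + 1)), ‖FA A ((m : ℝ) / M)‖) * V := by rw [sum_mul]
      _ ≤ (b * m0 * y ^ κ) * V := mul_le_mul_of_nonneg_right h3 hV0
      _ = m0 * (6 * C * L ^ 7 * b * (y ^ κ * ((√(2 * N * y) + (N : ℝ) ^ (4 / 5 : ℝ) + N * √(b / y)) /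
            (1 + 4 * H * y / M)))) := by rw [hV]; ring
      _ ≤ m0 * (6 * C * L ^ 7 * b * (N * E)) := by gcongr
      _ = _ := by rw [hMN]; ring
  have hE0 : 0 ≤ E := by rw [hE]; positivity
  have hfar2 : ∑ i ∈ Ico i0 (k + 1), ∑ m ∈ Ico (b ^ i) (b ^ (i + 1)), f m ≤
      (k + 1) * (m0 * (6 * C * L ^ 7 * M * E)) := by
    refine (sum_le_sum hfar).trans ?_
    rw [sum_const, nsmul_eq_mul, Nat.card_Ico]
    apply mul_le_mul_of_nonneg_right _ (by positivity)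
    have : k + 1 - i0 ≤ k + 1 := Nat.sub_le _ _
    exact_mod_cast this
  have hfin : (M : ℝ) * |TL A H / H - TL A H1 / H1| ≤ M * (m0 * (52 * (H1 / ((b : ℝ) ^ k)) * Y0 ^ 2 +
        12 * C * L ^ 7 * (k + 1) * E)) := by
    have hq : 26 * N * H1 * Y0 ^ 2 / M ≤ M * (26 * (H1 / ((b : ℝ) ^ k)) * Y0 ^ 2) := by
      rw [← hNr, div_le_iff₀ hM0]
      have e1 : (M : ℝ) * (26 * (H1 / N) * Y0 ^ 2) * M = 26 * H1 * Y0 ^ 2 * (M * M / N) := by
        field_simp
      rw [e1]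
      have e2 : (N : ℝ) ≤ M * M / N := by
        rw [le_div_iff₀ hN0]; nlinarith
      calc 26 * (N : ℝ) * H1 * Y0 ^ 2 = 26 * H1 * Y0 ^ 2 * N := by ring
        _ ≤ _ := by gcongr
    calc (M : ℝ) * |TL A H / H - TL A H1 / H1| ≤ _ := hfold
      _ ≤ 2 * (m0 * (26 * N * H1 * Y0 ^ 2 / M) + (k + 1) * (m0 * (6 * C * L ^ 7 * M * E))) := by
          linarith
      _ ≤ 2 * (m0 * (M * (26 * (H1 / ((b : ℝ) ^ k)) * Y0 ^ 2)) +
          (k + 1) * (m0 * (6 * C * L ^ 7 * M * E))) := by gcongr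
      _ = _ := by ring
  exact le_of_mul_le_mul_left hfin hM0

end Pool.Agent.Y851.DG
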