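import Pool.Agent.Y851.DG.Cnt

/-! Restricted digits: the final estimates. -/

set_option autoImplicit false

namespace Pool.Agent.Y851.DG
open Finset Filter
open Pool.Agent.W301.SS

/-- the error term is small -/
lemma ev_err (C : ℝ) (hC : 0 < C) (b : ℕ) (hb : 2 ≤ b) (ε η : ℝ) (hε : 0 < ε) (hε1 : ε ≤ 1 / 2)
    (hη : 0 < η) :
    ∀ᶠ N : ℕ in atTop, ∀ k : ℕ, N = b ^ k → ∀ H H1 : ℕ, (N : ℝ) ^ (ε / 2) ≤ H →
      (H1 : ℝ) ≤ N / (1 + Real.log N) ^ 62 → ∀ Y0 : ℝ, (1 + Real.log N) ^ 30 ≤ Y0 →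
      Y0 ≤ b * (1 + Real.log N) ^ 30 →
      52 * (H1 / (N : ℝ)) * Y0 ^ 2 + 12 * C * (1 + Real.log N) ^ 7 * (k + 1) *
        ((N : ℝ) ^ (ε / 8) * √(b / H) + (N : ℝ) ^ (ε / 8 - 1 / 5) + √b * Y0 ^ (ε / 8 - 1 / 2)) ≤ η := by
  have hb0 : (0 : ℝ) < b := by exact_mod_cast (by omega : 0 < b)
  filter_upwards [ev_L (208 * b ^ 2 / η + 96 * C * √b / η + 1),
    ev_log 8 (96 * C * √b / η * 2 ^ 8) (ε / 8) (by positivity),
    ev_log 8 (96 * C / η * 2 ^ 8) (1 / 8) (by norm_num), eventually_ge_atTop 2] with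
    N h1 h2 h3 hN2 k hNk H H1 hH hH1 Y0 hY hY'
  have hNr : (2 : ℝ) ≤ N := by exact_mod_cast hN2
  have hN0 : (0 : ℝ) < N := by linarith
  set ℓ := Real.log N with hℓ
  have hp1 : 0 < 208 * (b : ℝ) ^ 2 / η := by positivity
  have hp2 : 0 < 96 * C * √b / η := by positivity
  have hℓ1 : 1 ≤ ℓ := by linarith
  set L : ℝ := 1 + ℓ with hL
  have hL1 : 1 ≤ L := by linarith
  have hL0 : 0 < L := by linarith
  have hL2 : L ≤ 2 * ℓ := by linarith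
  have hH0 : (0 : ℝ) < H := lt_of_lt_of_le (by positivity) hH
  have hY0 : 0 < Y0 := lt_of_lt_of_le (by positivity) hY
  -- `k + 1 ≤ 2 L`
  have hk : (k : ℝ) + 1 ≤ 2 * L := by
    have e : ℓ = k * Real.log b := by
      rw [hℓ, hNk]; push_cast; rw [Real.log_pow]
    have a1 : (1 / 2 : ℝ) ≤ Real.log b := by
      have a2 := Real.log_two_gt_d9
      have a3 := Real.log_le_log (by norm_num : (0 : ℝ) < 2) (by exact_mod_cast hb : (2 : ℝ) ≤ b)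
      linarith
    have a4 : (k : ℝ) * (1 / 2) ≤ ℓ := by
      rw [e]; exact mul_le_mul_of_nonneg_left a1 (Nat.cast_nonneg k)
    linarith
  have hL8 : L ^ 8 ≤ 2 ^ 8 * ℓ ^ 8 := by
    rw [← mul_pow]; exact pow_le_pow_left₀ hL0.le hL2 8
  -- first term
  have t1 : 52 * (H1 / (N : ℝ)) * Y0 ^ 2 ≤ η / 4 := by
    have a1 : (H1 : ℝ) / N ≤ 1 / L ^ 62 := by
      rw [div_le_div_iff₀ hN0 (by positivity)]
      rw [le_div_iff₀ (by positivity)] at hH1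
      linarith
    calc 52 * (H1 / (N : ℝ)) * Y0 ^ 2 ≤ 52 * (1 / L ^ 62) * (b * L ^ 30) ^ 2 := by gcongr
      _ = 52 * b ^ 2 / L ^ 2 := by field_simp
      _ ≤ η / 4 := by
        rw [div_le_div_iff₀ (by positivity) (by norm_num)]
        have a2 : 208 * (b : ℝ) ^ 2 / η ≤ L := by linarith
        rw [div_le_iff₀ hη] at a2
        have a3 : L * 1 ≤ L * L := mul_le_mul_of_nonneg_left hL1 hL0.le
        nlinarith
  have hcoef : 12 * C * L ^ 7 * (k + 1) ≤ 24 * C * L ^ 8 := by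
    calc 12 * C * L ^ 7 * (k + 1) ≤ 12 * C * L ^ 7 * (2 * L) := by gcongr
      _ = _ := by ring
  have hsb : √(b : ℝ) > 0 := Real.sqrt_pos.2 hb0
  have t2 : 24 * C * L ^ 8 * ((N : ℝ) ^ (ε / 8) * √(b / H)) ≤ η / 4 := by
    have a1 : √((b : ℝ) / H) ≤ √b * (N : ℝ) ^ (-(ε / 4)) := by
      have a2 : (b : ℝ) / H ≤ b * ((N : ℝ) ^ (-(ε / 4))) ^ 2 := by
        have e : ((N : ℝ) ^ (-(ε / 4))) ^ 2 = 1 / (N : ℝ) ^ (ε / 2) := by
          rw [← Real.rpow_natCast, ← Real.rpow_mul hN0.le, one_div, ← Real.rpow_neg hN0.le]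
          congr 1; push_cast; ring
        rw [e, mul_one_div]
        gcongr
      calc √((b : ℝ) / H) ≤ √(b * ((N : ℝ) ^ (-(ε / 4))) ^ 2) := Real.sqrt_le_sqrt a2
        _ = _ := by rw [Real.sqrt_mul hb0.le, Real.sqrt_sq (by positivity)]
    have a3 : (96 * C * √b / η) * L ^ 8 ≤ (N : ℝ) ^ (ε / 8) := by
      refine le_trans ?_ h2
      calc (96 * C * √b / η) * L ^ 8 ≤ (96 * C * √b / η) * (2 ^ 8 * ℓ ^ 8) := by gcongr
        _ = _ := by ring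
    have a4 : 24 * C * √b * L ^ 8 ≤ η / 4 * (N : ℝ) ^ (ε / 8) := by
      have e : 24 * C * √b * L ^ 8 = η / 4 * ((96 * C * √b / η) * L ^ 8) := by field_simp; ring
      rw [e]; gcongr
    have a5 : (N : ℝ) ^ (ε / 8) * (N : ℝ) ^ (-(ε / 4)) * (N : ℝ) ^ (ε / 8) = 1 := by
      rw [← Real.rpow_add hN0, ← Real.rpow_add hN0, show ε / 8 + -(ε / 4) + ε / 8 = 0 by ring,
        Real.rpow_zero]
    calc 24 * C * L ^ 8 * ((N : ℝ) ^ (ε / 8) * √(b / H)) ≤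
          24 * C * L ^ 8 * ((N : ℝ) ^ (ε / 8) * (√b * (N : ℝ) ^ (-(ε / 4)))) := by gcongr
      _ = (24 * C * √b * L ^ 8) * ((N : ℝ) ^ (ε / 8) * (N : ℝ) ^ (-(ε / 4))) := by ring
      _ ≤ (η / 4 * (N : ℝ) ^ (ε / 8)) * ((N : ℝ) ^ (ε / 8) * (N : ℝ) ^ (-(ε / 4))) := by gcongr
      _ = η / 4 * ((N : ℝ) ^ (ε / 8) * (N : ℝ) ^ (-(ε / 4)) * (N : ℝ) ^ (ε / 8)) := by ring
      _ = η / 4 := by rw [a5, mul_one]
  have t3 : 24 * C * L ^ 8 * (N : ℝ) ^ (ε / 8 - 1 / 5) ≤ η / 4 := by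
    have a3 : (96 * C / η) * L ^ 8 ≤ (N : ℝ) ^ (1 / 8 : ℝ) := by
      refine le_trans ?_ h3
      calc (96 * C / η) * L ^ 8 ≤ (96 * C / η) * (2 ^ 8 * ℓ ^ 8) := by gcongr
        _ = _ := by ring
    have a4 : 24 * C * L ^ 8 ≤ η / 4 * (N : ℝ) ^ (1 / 8 : ℝ) := by
      have e : 24 * C * L ^ 8 = η / 4 * ((96 * C / η) * L ^ 8) := by field_simp; ring
      rw [e]; gcongr
    have a5 : (N : ℝ) ^ (ε / 8 - 1 / 5) ≤ (N : ℝ) ^ (-(1 / 8) : ℝ) :=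
      Real.rpow_le_rpow_of_exponent_le (by linarith) (by linarith)
    calc 24 * C * L ^ 8 * (N : ℝ) ^ (ε / 8 - 1 / 5) ≤
          (η / 4 * (N : ℝ) ^ (1 / 8 : ℝ)) * (N : ℝ) ^ (-(1 / 8) : ℝ) := by gcongr
      _ = η / 4 := by rw [mul_assoc, ← Real.rpow_add hN0]; simp
  have t4 : 24 * C * L ^ 8 * (√b * Y0 ^ (ε / 8 - 1 / 2)) ≤ η / 4 := by
    have a1 : Y0 ^ (ε / 8 - 1 / 2) ≤ 1 / L ^ 13 := by
      calc Y0 ^ (ε / 8 - 1 / 2) ≤ (L ^ 30) ^ (ε / 8 - 1 / 2) :=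
            Real.rpow_le_rpow_of_nonpos (by positivity) hY (by linarith)
        _ = L ^ (30 * (ε / 8 - 1 / 2)) := by
            rw [← Real.rpow_natCast, ← Real.rpow_mul hL0.le]; norm_num
        _ ≤ L ^ (-(13 : ℝ)) := Real.rpow_le_rpow_of_exponent_le hL1 (by linarith)
        _ = 1 / L ^ 13 := by
            rw [Real.rpow_neg hL0.le, one_div]
            norm_cast
    have a2 : 96 * C * √b / η ≤ L := by linarith
    rw [div_le_iff₀ hη] at a2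
    calc 24 * C * L ^ 8 * (√b * Y0 ^ (ε / 8 - 1 / 2)) ≤ 24 * C * L ^ 8 * (√b * (1 / L ^ 13)) := by
          gcongr
      _ = 24 * C * √b / L ^ 5 := by field_simp
      _ ≤ 24 * C * √b / L := by
          apply div_le_div_of_nonneg_left (by positivity) hL0
          calc L = L ^ 1 := (pow_one L).symm
            _ ≤ L ^ 5 := pow_le_pow_right₀ hL1 (by norm_num)
      _ ≤ η / 4 := by
          rw [div_le_div_iff₀ hL0 (by norm_num)]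
          linarith
  have hsum0 : 0 ≤ (N : ℝ) ^ (ε / 8) * √(b / H) + (N : ℝ) ^ (ε / 8 - 1 / 5) +
      √b * Y0 ^ (ε / 8 - 1 / 2) := by positivity
  calc 52 * (H1 / (N : ℝ)) * Y0 ^ 2 + 12 * C * L ^ 7 * (k + 1) *
        ((N : ℝ) ^ (ε / 8) * √(b / H) + (N : ℝ) ^ (ε / 8 - 1 / 5) + √b * Y0 ^ (ε / 8 - 1 / 2)) ≤
        52 * (H1 / (N : ℝ)) * Y0 ^ 2 + 24 * C * L ^ 8 *
        ((N : ℝ) ^ (ε / 8) * √(b / H) + (N : ℝ) ^ (ε / 8 - 1 / 5) + √b * Y0 ^ (ε / 8 - 1 / 2)) := by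
          gcongr
    _ = 52 * (H1 / (N : ℝ)) * Y0 ^ 2 + 24 * C * L ^ 8 * ((N : ℝ) ^ (ε / 8) * √(b / H)) +
        24 * C * L ^ 8 * (N : ℝ) ^ (ε / 8 - 1 / 5) +
        24 * C * L ^ 8 * (√b * Y0 ^ (ε / 8 - 1 / 2)) := by ring
    _ ≤ η := by linarith

/-- few elements of the set have leading digit `0` -/
lemma small_filter {b : ℕ} {D : Finset ℕ} (hD : ∀ d ∈ D, d < b) (k : ℕ) :
    ((DS b D (k + 1)).filter (fun x => x < b ^ k)).card ≤ D.card ^ k := by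
  rw [← DS_card hD k]
  apply card_le_card
  intro x hx
  rw [mem_filter] at hx
  rw [DS_mem hD] at hx ⊢
  exact ⟨hx.2, fun i hi => hx.1.2 i (by omega)⟩

end Pool.Agent.Y851.DG
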