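import Pool.Agent.Y851.DG.Base
import Pool.Agent.Y851.DG.Comp

/-! Restricted digits: the main theorem. -/

set_option autoImplicit false

namespace Pool.Agent.Y851.DG
open Finset Filter
open Pool.Agent.W301.SS

/-- the size conditions -/
lemma sizes (ε κ δ : ℝ) (hε : 0 < ε) (hκ : 0 < κ) (hκε : κ ≤ ε / 40) (hκδ : κ ≤ δ / 40)
    (hε1 : ε ≤ 1 / 2) (hδ : 0 < δ) (hδ1 : δ ≤ 1 / 8) :
    ∀ᶠ N : ℕ in atTop, ∀ m0 : ℝ, (N : ℝ) ^ (1 - 2 * κ) ≤ m0 → ∀ H : ℕ, (N : ℝ) ^ (ε / 2) ≤ H →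
      (H : ℝ) ≤ (N : ℝ) ^ (1 / 2 : ℝ) → ((H : ℝ) + 2) * Real.log N ≤ δ * m0 ∧
      (H : ℝ) + 2 ≤ δ * m0 ∧
      (3 * (N : ℝ) ^ (1 - δ) + (2 * N / H) * (2 * Real.log N) ^ 16) * (4 * Real.log N ^ 2 / δ ^ 2) ≤
        m0 / 2 ∧
      (N : ℝ) ^ (1 / 4 : ℝ) * (2 * Real.log N / δ) ≤ m0 / 2 := by
  filter_upwards [ev_L 2, ev_log 1 (16 / δ) (1 / 4) (by norm_num),
    ev_log 2 (96 / δ ^ 2) (δ - 3 * κ) (by linarith),
    ev_log 18 (64 * 2 ^ 16 / δ ^ 2) (ε / 2 - 3 * κ) (by linarith),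
    ev_log 0 4 κ hκ, eventually_ge_atTop 1] with N h1 h2 h3 h4 h5 hN1 m0 hm0 H hH1 hH2
  have hN1r : (1 : ℝ) ≤ N := by exact_mod_cast hN1
  have hN0 : (0 : ℝ) < N := by linarith
  obtain ⟨ℓ, hℓ⟩ : ∃ ℓ : ℝ, ℓ = Real.log N := ⟨_, rfl⟩
  rw [← hℓ] at h1 h2 h3 h4 ⊢
  rw [pow_one] at h2
  rw [pow_zero, mul_one] at h5
  have hℓ0 : 0 < ℓ := by linarith
  have hH0 : (0 : ℝ) < H := lt_of_lt_of_le (by positivity) hH1
  have hm00 : 0 < m0 := lt_of_lt_of_le (by positivity) hm0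
  have hhalf1 : 1 ≤ (N : ℝ) ^ (1 / 2 : ℝ) := Real.one_le_rpow hN1r (by norm_num)
  have h34 : (N : ℝ) ^ (3 / 4 : ℝ) ≤ m0 :=
    (Real.rpow_le_rpow_of_exponent_le hN1r (by linarith)).trans hm0
  have hsplit : (N : ℝ) ^ (3 / 4 : ℝ) = (N : ℝ) ^ (1 / 2 : ℝ) * (N : ℝ) ^ (1 / 4 : ℝ) := by
    rw [← Real.rpow_add hN0]; norm_num
  have hℓδ : 16 * ℓ ≤ δ * (N : ℝ) ^ (1 / 4 : ℝ) := by
    calc 16 * ℓ = δ * (16 / δ * ℓ) := by field_simp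
      _ ≤ _ := mul_le_mul_of_nonneg_left h2 hδ.le
  have c1 : ((H : ℝ) + 2) * ℓ ≤ δ * m0 := by
    have a1 : (H : ℝ) + 2 ≤ 4 * (N : ℝ) ^ (1 / 2 : ℝ) := by linarith
    calc ((H : ℝ) + 2) * ℓ ≤ (4 * (N : ℝ) ^ (1 / 2 : ℝ)) * ℓ := mul_le_mul_of_nonneg_right a1 hℓ0.le
      _ = (N : ℝ) ^ (1 / 2 : ℝ) * (4 * ℓ) := by ring
      _ ≤ (N : ℝ) ^ (1 / 2 : ℝ) * (δ * (N : ℝ) ^ (1 / 4 : ℝ)) := by
          apply mul_le_mul_of_nonneg_left _ (by positivity)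
          linarith
      _ = δ * (N : ℝ) ^ (3 / 4 : ℝ) := by rw [hsplit]; ring
      _ ≤ _ := mul_le_mul_of_nonneg_left h34 hδ.le
  have hm3 : (N : ℝ) ^ (1 - 3 * κ) ≤ m0 / 4 := by
    have e : (N : ℝ) ^ (1 - 2 * κ) = (N : ℝ) ^ (1 - 3 * κ) * (N : ℝ) ^ κ := by
      rw [← Real.rpow_add hN0]; congr 1; ring
    have : (N : ℝ) ^ (1 - 3 * κ) * 4 ≤ (N : ℝ) ^ (1 - 3 * κ) * (N : ℝ) ^ κ :=
      mul_le_mul_of_nonneg_left h5 (by positivity)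
    linarith
  refine ⟨c1, ?_, ?_, ?_⟩
  · refine le_trans ?_ c1
    calc (H : ℝ) + 2 = ((H : ℝ) + 2) * 1 := (mul_one _).symm
      _ ≤ _ := mul_le_mul_of_nonneg_left (by linarith) (by linarith)
  · have a1 : 3 * (N : ℝ) ^ (1 - δ) * (4 * ℓ ^ 2 / δ ^ 2) ≤ m0 / 4 := by
      refine le_trans ?_ hm3
      have e : (N : ℝ) ^ (1 - 3 * κ) = (N : ℝ) ^ (1 - δ) * (N : ℝ) ^ (δ - 3 * κ) := by
        rw [← Real.rpow_add hN0]; congr 1; ring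
      rw [e]
      have a2 : 0 ≤ (N : ℝ) ^ (1 - δ) := by positivity
      have a3 : 0 ≤ ℓ ^ 2 / δ ^ 2 := by positivity
      calc 3 * (N : ℝ) ^ (1 - δ) * (4 * ℓ ^ 2 / δ ^ 2) = (N : ℝ) ^ (1 - δ) * (12 * (ℓ ^ 2 / δ ^ 2)) := by
            ring
        _ ≤ (N : ℝ) ^ (1 - δ) * (96 * (ℓ ^ 2 / δ ^ 2)) := by
            apply mul_le_mul_of_nonneg_left _ a2; linarith
        _ = (N : ℝ) ^ (1 - δ) * (96 / δ ^ 2 * ℓ ^ 2) := by ring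
        _ ≤ _ := mul_le_mul_of_nonneg_left h3 a2
    have a2 : (2 * N / H) * (2 * ℓ) ^ 16 * (4 * ℓ ^ 2 / δ ^ 2) ≤ m0 / 4 := by
      refine le_trans ?_ hm3
      have a3 : (2 * N / H : ℝ) ≤ 2 * (N : ℝ) ^ (1 - ε / 2) := by
        rw [div_le_iff₀ hH0]
        calc 2 * (N : ℝ) = 2 * (N : ℝ) ^ (1 - ε / 2) * (N : ℝ) ^ (ε / 2) := by
              rw [mul_assoc, ← Real.rpow_add hN0]; simp
          _ ≤ _ := mul_le_mul_of_nonneg_left hH1 (by positivity)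
      have e : (N : ℝ) ^ (1 - 3 * κ) = (N : ℝ) ^ (1 - ε / 2) * (N : ℝ) ^ (ε / 2 - 3 * κ) := by
        rw [← Real.rpow_add hN0]; congr 1; ring
      rw [e]
      have a4 : 0 ≤ (N : ℝ) ^ (1 - ε / 2) := by positivity
      have a5 : 0 ≤ 2 ^ 16 * ℓ ^ 18 / δ ^ 2 := by positivity
      calc (2 * N / H) * (2 * ℓ) ^ 16 * (4 * ℓ ^ 2 / δ ^ 2) =
            (2 * N / H) * ((2 * ℓ) ^ 16 * (4 * ℓ ^ 2 / δ ^ 2)) := by ring
        _ ≤ (2 * (N : ℝ) ^ (1 - ε / 2)) * ((2 * ℓ) ^ 16 * (4 * ℓ ^ 2 / δ ^ 2)) :=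
            mul_le_mul_of_nonneg_right a3 (by positivity)
        _ = (N : ℝ) ^ (1 - ε / 2) * (8 * (2 ^ 16 * ℓ ^ 18 / δ ^ 2)) := by ring
        _ ≤ (N : ℝ) ^ (1 - ε / 2) * (64 * (2 ^ 16 * ℓ ^ 18 / δ ^ 2)) := by
            apply mul_le_mul_of_nonneg_left _ a4; linarith
        _ = (N : ℝ) ^ (1 - ε / 2) * (64 * 2 ^ 16 / δ ^ 2 * ℓ ^ 18) := by ring
        _ ≤ _ := mul_le_mul_of_nonneg_left h4 a4
    calc (3 * (N : ℝ) ^ (1 - δ) + (2 * N / H) * (2 * ℓ) ^ 16) * (4 * ℓ ^ 2 / δ ^ 2) =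
          3 * (N : ℝ) ^ (1 - δ) * (4 * ℓ ^ 2 / δ ^ 2) +
          (2 * N / H) * (2 * ℓ) ^ 16 * (4 * ℓ ^ 2 / δ ^ 2) := by ring
      _ ≤ m0 / 2 := by linarith
  · have a1 : 2 * ℓ / δ ≤ (N : ℝ) ^ (1 / 4 : ℝ) / 4 := by
      rw [div_le_div_iff₀ hδ (by norm_num)]
      linarith
    have a2 : (N : ℝ) ^ (1 / 4 : ℝ) * (N : ℝ) ^ (1 / 4 : ℝ) = (N : ℝ) ^ (1 / 2 : ℝ) := by
      rw [← Real.rpow_add hN0]; norm_num
    have a3 : (N : ℝ) ^ (1 / 2 : ℝ) ≤ (N : ℝ) ^ (3 / 4 : ℝ) :=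
      Real.rpow_le_rpow_of_exponent_le hN1r (by norm_num)
    calc (N : ℝ) ^ (1 / 4 : ℝ) * (2 * ℓ / δ) ≤ (N : ℝ) ^ (1 / 4 : ℝ) * ((N : ℝ) ^ (1 / 4 : ℝ) / 4) :=
          mul_le_mul_of_nonneg_left a1 (by positivity)
      _ = (N : ℝ) ^ (1 / 2 : ℝ) / 4 := by rw [← a2]; ring
      _ ≤ m0 / 2 := by linarith

theorem core (ε κ δ : ℝ) (hε : 0 < ε) (hκ : 0 < κ) (hκε : κ ≤ ε / 40) (hκδ : κ ≤ δ / 40)
    (hε1 : ε ≤ 1 / 2) (hδ : 0 < δ) (hδ1 : δ ≤ 1 / 8) {b : ℕ} (hb : 2 ≤ b)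
    (hδb : 1 / δ ≤ (b : ℝ) ^ (1 / 2 : ℝ)) {D : Finset ℕ} (hD : ∀ d ∈ D, d < b)
    (hDc : (b : ℝ) ^ (1 - 2 * κ) ≤ D.card)
    (hB : ∀ θ : ℝ, ∑ s ∈ range b, ‖FA D (θ + (s : ℝ) / b)‖ ≤ D.card * (b : ℝ) ^ (ε / 8)) :
    ∀ᶠ k : ℕ in atTop, ∀ S : Finset ℕ,
      (∀ x ∈ DS b D (k + 1), ∀ p : ℕ, p.Prime → (x : ℝ) - (x : ℝ) ^ ε < p → p < x → x ∈ S) →
      (1 / 4 - 4 * δ) * (D.card : ℝ) ^ (k + 1) ≤ S.card := by
  have hbr : (2 : ℝ) ≤ b := by exact_mod_cast hb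
  have hb1 : (1 : ℝ) ≤ b := by linarith
  have hb0 : (0 : ℝ) < b := by linarith
  have hDδ : 1 / δ ≤ D.card := hδb.trans
    ((Real.rpow_le_rpow_of_exponent_le hb1 (by linarith)).trans hDc)
  have htend : Tendsto (fun k : ℕ => b ^ (k + 1)) atTop atTop :=
    (tendsto_pow_atTop_atTop_of_one_lt (by omega)).comp (tendsto_add_atTop_nat 1)
  filter_upwards [(tendsto_add_atTop_nat 1).eventually (comp b hb ε δ hε hε1 hδ D hD hB),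
    longer b hb δ hδ (by linarith) D hD hDδ, lengths b hb ε hε hε1,
    htend.eventually (sizes ε κ δ hε hκ hκε hκδ hε1 hδ hδ1),
    htend.eventually (subsets δ hδ (by linarith))] with k h1 h2 h3 h4 h5 S hS
  obtain ⟨H, H1, i1, i2, i3, i4, i5, i6⟩ := h3
  have hest := h1 H H1 i1 i4 i5
  have hlong := h2 H1 i5 i6
  obtain ⟨N, hN⟩ : ∃ N : ℕ, N = b ^ (k + 1) := ⟨_, rfl⟩
  have hNr : (N : ℝ) = (b : ℝ) ^ (k + 1) := by rw [hN]; push_cast; rfl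
  obtain ⟨A, hA⟩ : ∃ A : Finset ℕ, A = DS b D (k + 1) := ⟨_, rfl⟩
  obtain ⟨m0, hm0⟩ : ∃ m0 : ℝ, m0 = (D.card : ℝ) ^ (k + 1) := ⟨_, rfl⟩
  have hm00 : 0 ≤ m0 := by rw [hm0]; positivity
  have hAcard : (A.card : ℝ) = m0 := by rw [hA, DS_card hD, hm0]; push_cast; rfl
  have hAN : ∀ a ∈ A, a ≤ N := by
    intro a ha
    rw [hA] at ha
    rw [hN]
    exact (DS_lt hD (k + 1) a ha).le
  have hN1 : 1 ≤ N := by rw [hN]; exact Nat.pow_pos (by omega)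
  have hmN : (N : ℝ) ^ (1 - 2 * κ) ≤ m0 := by
    rw [hNr, hm0, ← Real.rpow_natCast (b : ℝ), ← Real.rpow_mul hb0.le, mul_comm,
      Real.rpow_mul hb0.le, Real.rpow_natCast]
    exact pow_le_pow_left₀ (by positivity) hDc _
  obtain ⟨X, hX⟩ : ∃ X : ℕ, X = b ^ k := ⟨_, rfl⟩
  have hX0 : (0 : ℝ) < X := by rw [hX]; push_cast; positivity
  rw [← hX] at i2
  have hsmall : ((A.filter (fun x => x < X)).card : ℝ) ≤ δ * m0 := by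
    have a1 := small_filter hD k
    rw [← hA, ← hX] at a1
    have a2 : ((A.filter (fun x => x < X)).card : ℝ) ≤ (D.card : ℝ) ^ k := by exact_mod_cast a1
    refine a2.trans ?_
    rw [hm0, pow_succ]
    have a3 : 1 ≤ δ * D.card := by
      rw [div_le_iff₀ hδ] at hDδ; linarith
    have a4 : 0 ≤ (D.card : ℝ) ^ k := by positivity
    calc (D.card : ℝ) ^ k = (D.card : ℝ) ^ k * 1 := (mul_one _).symm
      _ ≤ (D.card : ℝ) ^ k * (δ * D.card) := mul_le_mul_of_nonneg_left a3 a4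
      _ = _ := by ring
  rw [← hN] at h4 h5 i1 i3
  rw [← hA, ← hm0] at hest hlong
  rw [← hA] at hS
  rw [← hm0]
  clear h1 h2 i5 i6 hm0 hA hX hDc hB
  obtain ⟨j1, j2, j3, j4⟩ := h4 m0 hmN H i1 i3
  have hH1 : 1 ≤ H := by
    have hN1r : (1 : ℝ) ≤ N := by exact_mod_cast hN1
    have : (1 : ℝ) ≤ H := (Real.one_le_rpow hN1r (by positivity)).trans i1
    exact_mod_cast this
  have hHr0 : (0 : ℝ) < H := by exact_mod_cast hH1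
  have hTL : (1 - 3 * δ) * m0 * H ≤ TL A H := by
    rw [abs_le] at hest
    have a1 : (1 - 3 * δ) * m0 ≤ TL A H / H := by linarith [hest.1]
    rwa [le_div_iff₀ hHr0] at a1
  have hup := up_TL (A := A) (N := N) (H := H) hN1 hAN
  have hA'le : ((sh A H).card : ℝ) ≤ m0 := by
    rw [← hAcard]; exact_mod_cast sh_card_le A H
  have hA'ge : (1 - δ) * m0 ≤ (sh A H).card := by
    have a1 : (A.card : ℝ) ≤ ((sh A H).card : ℝ) + (H + 2) := by exact_mod_cast sh_card A H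
    rw [hAcard] at a1
    linarith
  have hA'half : m0 / 2 ≤ (sh A H).card := by
    have : δ * m0 ≤ 1 / 8 * m0 := mul_le_mul_of_nonneg_right hδ1 hm00
    linarith
  have hcs : (1 - 4 * δ) * (((sh A H).card : ℝ) * H) ≤ cs (sh A H) 1 H * Real.log N := by
    have a1 : ((H : ℝ) + 2) * (H * Real.log N) ≤ δ * m0 * H := by
      calc ((H : ℝ) + 2) * (H * Real.log N) = (((H : ℝ) + 2) * Real.log N) * H := by ring
        _ ≤ _ := mul_le_mul_of_nonneg_right j1 hHr0.le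
    have a2 : (1 - 4 * δ) * m0 * H ≤ cs (sh A H) 1 H * Real.log N := by
      have e : (1 - 4 * δ) * m0 * H = (1 - 3 * δ) * m0 * H - δ * m0 * H := by ring
      linarith
    refine le_trans ?_ a2
    have : 0 ≤ 1 - 4 * δ := by linarith
    calc (1 - 4 * δ) * (((sh A H).card : ℝ) * H) ≤ (1 - 4 * δ) * (m0 * H) := by
          apply mul_le_mul_of_nonneg_left _ this
          exact mul_le_mul_of_nonneg_right hA'le hHr0.le
      _ = _ := by ring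
  have hA'N : ∀ a ∈ sh A H, a ≤ N := by
    intro a ha
    unfold sh at ha
    rw [mem_image] at ha
    obtain ⟨x, hx, rfl⟩ := ha
    rw [mem_filter] at hx
    have := hAN x hx.1
    omega
  have hsub := h5 (sh A H) hA'N 1 (by rw [mem_Icc]; exact ⟨le_rfl, hN1⟩) H hH1
    (j3.trans hA'half) (j4.trans hA'half)
  have hmany := many δ hδ (by linarith) (N := N) (y := H) (b := 1) (A := sh A H) δ (1 - 4 * δ) hδ.le hH1
    hsub hcs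
  have hcount := count_of_GG (A := A) (N := N) (H := H) (X := X) hδ hH1 S (by
    intro x hxA hXx p hp hp1 hp2 hHx
    apply hS x hxA p hp _ hp2
    have a1 : (x : ℝ) ≤ p + H := by
      have : x ≤ p + H := by omega
      exact_mod_cast this
    have a2 : (X : ℝ) ^ ε ≤ (x : ℝ) ^ ε := Real.rpow_le_rpow hX0.le (by exact_mod_cast hXx) hε.le
    linarith)
  have hcount' : ((GG (sh A H) N 1 H δ).card : ℝ) ≤ S.card + ((A.filter (fun x => x < X)).card : ℝ) := by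
    exact_mod_cast hcount
  have hfin : (1 - 2 * δ) / 4 * (1 - 6 * δ) * ((1 - δ) * m0) ≤ S.card + δ * m0 := by
    have a1 : 0 ≤ (1 - 2 * δ) / 4 * (1 - 6 * δ) := mul_nonneg (by linarith) (by linarith)
    calc (1 - 2 * δ) / 4 * (1 - 6 * δ) * ((1 - δ) * m0) ≤
          (1 - 2 * δ) / 4 * (1 - 6 * δ) * (sh A H).card := mul_le_mul_of_nonneg_left hA'ge a1
      _ = (1 - 2 * δ) / 4 * (1 - 4 * δ - δ - δ) * (sh A H).card := by ring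
      _ ≤ _ := by linarith
  have hpoly : 1 / 4 - 3 * δ ≤ (1 - 2 * δ) / 4 * (1 - 6 * δ) * (1 - δ) := by
    have e : (1 - 2 * δ) / 4 * (1 - 6 * δ) * (1 - δ) = 1 / 4 - 9 / 4 * δ + 5 * δ ^ 2 - 3 * δ ^ 3 := by ring
    rw [e]
    have : δ ^ 3 ≤ δ ^ 2 := by
      have : δ ^ 3 = δ ^ 2 * δ := by ring
      rw [this]
      calc δ ^ 2 * δ ≤ δ ^ 2 * 1 := mul_le_mul_of_nonneg_left (by linarith) (by positivity)
        _ = _ := mul_one _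
    have h2 : 0 ≤ δ ^ 2 := by positivity
    linarith
  have hfin2 : (1 / 4 - 3 * δ) * m0 ≤ S.card + δ * m0 := by
    refine le_trans ?_ hfin
    rw [← mul_assoc]
    exact mul_le_mul_of_nonneg_right hpoly hm00
  linarith

end Pool.Agent.Y851.DG
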